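import Pool.Agent.Lib.MP_e471a0_nt.Core

set_option autoImplicit false

/-!
STEP 5, arithmetic part: the divisor `m0` of one coordinate is replaced by its part `m` coprime to
`3` and to the other coordinates; the lost factor is small unless a large square divides the
coordinate or a large common factor with another coordinate exists.
-/

open Finset

namespace SixCubes

lemma copart (m0 N : ℕ) (h0 : m0 ≠ 0) :
    ∃ m c : ℕ, m0 = m * c ∧ Nat.Coprime m N ∧ ∀ p : ℕ, p.Prime → p ∣ c → p ∣ N := by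
  obtain ⟨m, hm, hmax⟩ := Finset.exists_max_image (m0.divisors.filter (fun m => m.Coprime N))
    (fun m => m) ⟨1, mem_filter.mpr ⟨Nat.mem_divisors.mpr ⟨one_dvd _, h0⟩, Nat.coprime_one_left N⟩⟩
  rw [mem_filter, Nat.mem_divisors] at hm
  obtain ⟨⟨⟨c, hc⟩, -⟩, hcop⟩ := hm
  refine ⟨m, c, hc, hcop, fun p hp hpc => ?_⟩
  by_contra hpN
  have hm0 : m ≠ 0 := by rintro rfl; exact h0 (by rw [hc, Nat.zero_mul])
  have h1 : m * p ∈ m0.divisors.filter (fun m => m.Coprime N) := by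
    rw [mem_filter, Nat.mem_divisors]
    refine ⟨⟨?_, h0⟩, ?_⟩
    · rw [hc]; exact Nat.mul_dvd_mul_left m hpc
    · exact Nat.Coprime.mul_left hcop ((Nat.Prime.coprime_iff_not_dvd hp).mpr hpN)
  have h2 := hmax _ h1
  have h3 := hp.two_le
  have h4 : m * 2 ≤ m * p := Nat.mul_le_mul_left m h3
  omega

lemma sqfree_dvd {a N : ℕ} (ha : Squarefree a) (hN : N ≠ 0)
    (h : ∀ p : ℕ, p.Prime → p ∣ a → p ∣ N) : a ∣ N := by
  rw [← Nat.prod_primeFactors_of_squarefree ha]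
  refine (Finset.prod_dvd_prod_of_subset _ _ _ ?_).trans (Nat.prod_primeFactors_dvd N)
  intro p hp
  rw [Nat.mem_primeFactors] at hp ⊢
  exact ⟨hp.1, h p hp.1 hp.2.1, hN⟩

theorem decomp {G K : ℝ} (x : Fin 6 → ℤ) (i : Fin 6) (m0 : ℕ)
    (h0 : m0 ≠ 0)
    (hii : ∀ (g : ℕ) (j : Fin 6), j ≠ i → g ∣ m0 → (g : ℤ) ∣ x j → (g : ℝ) ≤ G)
    (hi : ∀ k : ℕ, k ^ 2 ∣ m0 → (k : ℝ) ≤ K) :
    ∃ m : ℕ, m ∣ m0 ∧ ¬ 3 ∣ m ∧ (∀ j, j ≠ i → IsCoprime (x j) (m : ℤ)) ∧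
      (m0 : ℝ) ≤ 3 * G ^ 5 * K ^ 2 * m := by
  set N : ℕ := 3 * ∏ j ∈ univ.erase i, Nat.gcd m0 (x j).natAbs with hN
  have hgpos : ∀ j, 0 < Nat.gcd m0 (x j).natAbs := fun j =>
    Nat.gcd_pos_of_pos_left _ (Nat.pos_of_ne_zero h0)
  have hN0 : N ≠ 0 := by
    rw [hN]
    exact Nat.mul_ne_zero (by norm_num) (Finset.prod_ne_zero_iff.mpr fun j _ => (hgpos j).ne')
  have hNle : (N : ℝ) ≤ 3 * G ^ 5 := by
    rw [hN]
    push_cast
    apply mul_le_mul_of_nonneg_left _ (by norm_num)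
    have hcard : (univ.erase i : Finset (Fin 6)).card = 5 := by
      rw [card_erase_of_mem (mem_univ i)]; rfl
    rw [← hcard, ← Finset.prod_const]
    refine Finset.prod_le_prod (fun j _ => Nat.cast_nonneg _) fun j hj => ?_
    rw [mem_erase] at hj
    exact hii _ j hj.1 (Nat.gcd_dvd_left _ _)
      (Int.natCast_dvd.mpr (Nat.gcd_dvd_right _ _))
  obtain ⟨m, c, hc, hcop, hp⟩ := copart m0 N h0
  obtain ⟨a, b, hab, hsq⟩ := Nat.sq_mul_squarefree c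
  have hc0 : c ≠ 0 := by rintro rfl; exact h0 (by rw [hc, Nat.mul_zero])
  have haN : a ∣ N := sqfree_dvd hsq hN0 fun p hpp hpa =>
    hp p hpp (hpa.trans (by rw [← hab]; exact Dvd.intro_left _ rfl))
  have hale : (a : ℝ) ≤ 3 * G ^ 5 :=
    (by exact_mod_cast Nat.le_of_dvd (Nat.pos_of_ne_zero hN0) haN : (a : ℝ) ≤ N).trans hNle
  have hble : (b : ℝ) ≤ K := by
    apply hi
    rw [hc, ← hab]
    exact Dvd.dvd.mul_left (Dvd.intro _ rfl) m
  have hmm0 : m ∣ m0 := by rw [hc]; exact Dvd.intro _ rfl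
  refine ⟨m, hmm0, ?_, ?_, ?_⟩
  · intro h3
    have : 3 ∣ N := by rw [hN]; exact Dvd.intro _ rfl
    have := Nat.dvd_gcd h3 this
    rw [hcop] at this
    omega
  · intro j hj
    rw [Int.isCoprime_iff_gcd_eq_one, Int.gcd_comm, Int.gcd, Int.natAbs_natCast]
    have h1 : Nat.gcd m (x j).natAbs ∣ Nat.gcd m0 (x j).natAbs :=
      Nat.gcd_dvd_gcd_of_dvd_left _ hmm0
    have h2 : Nat.gcd m0 (x j).natAbs ∣ N := by
      rw [hN]
      exact Dvd.dvd.mul_left (Finset.dvd_prod_of_mem (fun j => Nat.gcd m0 (x j).natAbs)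
        (mem_erase.mpr ⟨hj, mem_univ j⟩)) 3
    have h3 : Nat.gcd m (x j).natAbs ∣ Nat.gcd m N :=
      Nat.dvd_gcd (Nat.gcd_dvd_left _ _) (h1.trans h2)
    rw [hcop] at h3
    exact Nat.dvd_one.mp h3
  · have h1 : (m0 : ℝ) = m * ((b : ℝ) ^ 2 * a) := by
      rw [hc, ← hab]; push_cast; ring
    rw [h1]
    have h2 : (b : ℝ) ^ 2 * a ≤ K ^ 2 * (3 * G ^ 5) := by
      apply mul_le_mul (pow_le_pow_left₀ (Nat.cast_nonneg _) hble 2) hale (Nat.cast_nonneg _)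
        (by positivity)
    calc (m : ℝ) * ((b : ℝ) ^ 2 * a) ≤ m * (K ^ 2 * (3 * G ^ 5)) :=
          mul_le_mul_of_nonneg_left h2 (Nat.cast_nonneg _)
      _ = _ := by ring

end SixCubes
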