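import Pool.Agent.Lib.MP_e471a0_nt.Bounds2
import Pool.Agent.Lib.MP_e471a0_nt.Decomp

set_option autoImplicit false

/-!
STEP 5, the union: the solutions with a coordinate with a divisor in `(B^η, B^(1/4-η)]` are covered
by three families.
-/

open Finset

namespace SixCubes

open scoped Classical in
/-- solutions with a coordinate with a divisor in the range -/
noncomputable def Bad (η : ℝ) (B : ℕ) : Finset (Fin 6 → ℤ) :=
  (N6set (fun _ => S B)).filter (fun x => ∃ i, ∃ m : ℕ, (m : ℤ) ∣ x i ∧ (B : ℝ) ^ η < m ∧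
    (m : ℝ) ≤ (B : ℝ) ^ (1 / 4 - η))

/-- one special place -/
def one (M A : Finset ℤ) (i : Fin 6) : Fin 6 → Finset ℤ := fun l => if l = i then M else A

/-- two special places -/
def two (M A : Finset ℤ) (i j : Fin 6) : Fin 6 → Finset ℤ :=
  fun l => if l = i ∨ l = j then M else A

lemma N6_one (M A : Finset ℤ) (i : Fin 6) : N6 (one M A i) = N6 ![M, A, A, A, A, A] := by
  refine N6_perm' _ _ (Equiv.swap 0 i) fun l => ?_
  have h : (Equiv.swap 0 i) l = i ↔ l = 0 := by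
    rw [Equiv.swap_apply_eq_iff, Equiv.swap_apply_right]
  simp only [one, h]
  fin_cases l <;> simp

lemma exists_perm2 {i j : Fin 6} (hij : j ≠ i) :
    ∃ σ : Equiv.Perm (Fin 6), σ 0 = i ∧ σ 1 = j := by
  revert hij
  revert i j
  intro i j hij
  refine ⟨(Equiv.swap 1 ((Equiv.swap 0 i) j)).trans (Equiv.swap 0 i), ?_, ?_⟩
  · have h1 : (Equiv.swap 0 i) j ≠ 0 := by
      intro h
      rw [Equiv.swap_apply_eq_iff, Equiv.swap_apply_left] at h
      exact hij h
    rw [Equiv.trans_apply, Equiv.swap_apply_of_ne_of_ne (by decide) h1.symm,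
      Equiv.swap_apply_left]
  · rw [Equiv.trans_apply, Equiv.swap_apply_left, Equiv.swap_apply_self]

lemma N6_two (M A : Finset ℤ) {i j : Fin 6} (hij : j ≠ i) :
    N6 (two M A i j) = N6 ![M, M, A, A, A, A] := by
  obtain ⟨σ, h0, h1⟩ := exists_perm2 hij
  refine N6_perm' _ _ σ fun l => ?_
  have e0 : σ l = i ↔ l = 0 := by rw [← h0]; exact σ.injective.eq_iff
  have e1 : σ l = j ↔ l = 1 := by rw [← h1]; exact σ.injective.eq_iff
  simp only [two, e0, e1]
  fin_cases l <;> simp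

noncomputable def R1 (K : ℝ) (B : ℕ) : Finset ℕ :=
  (Finset.Icc 1 B).filter (fun k => K < k ∧ k ^ 2 ≤ B)

noncomputable def R2 (G : ℝ) (B : ℕ) : Finset ℕ := (Finset.Icc 1 B).filter (fun g => G < g)

open scoped Classical in
noncomputable def R3 (η : ℝ) (B : ℕ) : Finset ℕ :=
  (Finset.Icc 1 B).filter (fun m => (B : ℝ) ^ (η / 2) < m ∧ (m : ℝ) ≤ (B : ℝ) ^ (1 / 4 - η) ∧
    ¬ 3 ∣ m)

noncomputable def Fam (η G K : ℝ) (B : ℕ) (i : Fin 6) : Finset (Fin 6 → ℤ) :=
  ((R1 K B).biUnion (fun k => N6set (one (Mk (k ^ 2) B) (S B) i))) ∪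
  (((univ.erase i).biUnion fun j => (R2 G B).biUnion (fun g => N6set (two (Mk g B) (S B) i j))) ∪
  ((R3 η B).biUnion (fun m => N6set (one (Mk m B) (Ak m B) i))))

theorem Bad_sub {η G K : ℝ} {B : ℕ} (h0 : 0 < η) (h1 : η ≤ 1 / 20) (hB : 1 ≤ B)
    (hGK : 3 * G ^ 5 * K ^ 2 * (B : ℝ) ^ (η / 2) ≤ (B : ℝ) ^ η) :
    Bad η B ⊆ univ.biUnion (fun i => Fam η G K B i) := by
  classical
  intro x hx
  rw [Bad, mem_filter, mem_N6set] at hx
  obtain ⟨⟨hxS, hsum⟩, i, m0, hmx, hm1, hm2⟩ := hx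
  have hB' : (1 : ℝ) ≤ B := by exact_mod_cast hB
  have hB0 : (0 : ℝ) < B := by linarith
  have hm0pos : (0 : ℝ) < m0 := lt_trans (by positivity) hm1
  have hm0 : m0 ≠ 0 := by rintro rfl; simp at hm0pos
  have hm0B : m0 ≤ B := by
    have : (m0 : ℝ) ≤ B := by
      calc (m0 : ℝ) ≤ (B : ℝ) ^ (1 / 4 - η) := hm2
        _ ≤ (B : ℝ) ^ (1 : ℝ) := Real.rpow_le_rpow_of_exponent_le hB' (by linarith)
        _ = B := Real.rpow_one _
    exact_mod_cast this
  rw [mem_biUnion]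
  refine ⟨i, mem_univ i, ?_⟩
  rw [Fam, mem_union, mem_union]
  by_cases hii : ∃ g : ℕ, ∃ j : Fin 6, j ≠ i ∧ g ∣ m0 ∧ (g : ℤ) ∣ x j ∧ G < g
  · obtain ⟨g, j, hj, hg, hgx, hgG⟩ := hii
    right; left
    rw [mem_biUnion]
    refine ⟨j, mem_erase.mpr ⟨hj, mem_univ j⟩, ?_⟩
    rw [mem_biUnion]
    have hg1 : 1 ≤ g := Nat.pos_of_dvd_of_pos hg (Nat.pos_of_ne_zero hm0)
    refine ⟨g, mem_filter.mpr ⟨Finset.mem_Icc.mpr ⟨hg1,
      (Nat.le_of_dvd (Nat.pos_of_ne_zero hm0) hg).trans hm0B⟩, hgG⟩, ?_⟩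
    rw [mem_N6set]
    refine ⟨fun l => ?_, hsum⟩
    by_cases hl : l = i ∨ l = j
    · simp only [two, if_pos hl]
      rw [mem_Mk]
      refine ⟨hxS l, ?_⟩
      rcases hl with rfl | rfl
      · exact (Int.natCast_dvd_natCast.mpr hg).trans hmx
      · exact hgx
    · simp only [two, if_neg hl]
      exact hxS l
  · by_cases hi : ∃ k : ℕ, k ^ 2 ∣ m0 ∧ K < k
    · obtain ⟨k, hk, hkK⟩ := hi
      left
      rw [mem_biUnion]
      have hk2 : 1 ≤ k ^ 2 := Nat.pos_of_dvd_of_pos hk (Nat.pos_of_ne_zero hm0)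
      have hk1 : 1 ≤ k := by
        rcases Nat.eq_zero_or_pos k with h | h
        · subst h; simp at hk2
        · exact h
      have hk2B : k ^ 2 ≤ B := (Nat.le_of_dvd (Nat.pos_of_ne_zero hm0) hk).trans hm0B
      refine ⟨k, mem_filter.mpr ⟨Finset.mem_Icc.mpr ⟨hk1, ?_⟩, hkK, hk2B⟩, ?_⟩
      · exact (Nat.le_self_pow (by norm_num) k).trans hk2B
      · rw [mem_N6set]
        refine ⟨fun l => ?_, hsum⟩
        by_cases hl : l = i
        · simp only [one, if_pos hl]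
          rw [mem_Mk, hl]
          exact ⟨hxS i, (Int.natCast_dvd_natCast.mpr hk).trans hmx⟩
        · simp only [one, if_neg hl]
          exact hxS l
    · right; right
      push Not at hii hi
      obtain ⟨m, hmm, h3, hcop, hle⟩ := decomp (G := G) x i m0 hm0
        (fun g j hj hg hgx => hii g j hj hg hgx) hi
      rw [mem_biUnion]
      have hm1' : 1 ≤ m := Nat.pos_of_dvd_of_pos hmm (Nat.pos_of_ne_zero hm0)
      have hmm0 : m ≤ m0 := Nat.le_of_dvd (Nat.pos_of_ne_zero hm0) hmm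
      refine ⟨m, mem_filter.mpr ⟨Finset.mem_Icc.mpr ⟨hm1', hmm0.trans hm0B⟩, ?_, ?_, h3⟩, ?_⟩
      · by_contra hcon
        rw [not_lt] at hcon
        have hpos : 0 < 3 * G ^ 5 * K ^ 2 := by
          by_contra hneg
          rw [not_lt] at hneg
          have : (m0 : ℝ) ≤ 0 := by
            calc (m0 : ℝ) ≤ 3 * G ^ 5 * K ^ 2 * m := hle
              _ ≤ 0 := mul_nonpos_of_nonpos_of_nonneg hneg (Nat.cast_nonneg _)
          linarith
        have : (m0 : ℝ) ≤ (B : ℝ) ^ η := by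
          calc (m0 : ℝ) ≤ 3 * G ^ 5 * K ^ 2 * m := hle
            _ ≤ 3 * G ^ 5 * K ^ 2 * (B : ℝ) ^ (η / 2) := mul_le_mul_of_nonneg_left hcon hpos.le
            _ ≤ _ := hGK
        linarith
      · exact le_trans (by exact_mod_cast hmm0) hm2
      · rw [mem_N6set]
        refine ⟨fun l => ?_, hsum⟩
        by_cases hl : l = i
        · simp only [one, if_pos hl]
          rw [mem_Mk, hl]
          exact ⟨hxS i, (Int.natCast_dvd_natCast.mpr hmm).trans hmx⟩
        · simp only [one, if_neg hl]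
          rw [mem_Ak]
          exact ⟨hxS l, hcop l hl⟩

theorem card_Fam_le (η G K : ℝ) (B : ℕ) (i : Fin 6) :
    (Fam η G K B i).card ≤ ∑ k ∈ R1 K B, N6 ![Mk (k ^ 2) B, S B, S B, S B, S B, S B] +
      (5 * ∑ g ∈ R2 G B, N6 ![Mk g B, Mk g B, S B, S B, S B, S B] +
      ∑ m ∈ R3 η B, N6 ![Mk m B, Ak m B, Ak m B, Ak m B, Ak m B, Ak m B]) := by
  classical
  rw [Fam]
  refine (card_union_le _ _).trans (add_le_add ?_ ((card_union_le _ _).trans
    (add_le_add ?_ ?_)))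
  · refine card_biUnion_le.trans (Finset.sum_le_sum fun k _ => le_of_eq ?_)
    exact N6_one _ _ i
  · refine card_biUnion_le.trans ?_
    have hcard : (univ.erase i : Finset (Fin 6)).card = 5 := by
      rw [card_erase_of_mem (mem_univ i)]; rfl
    have h5 : ∑ j ∈ univ.erase i, ((R2 G B).biUnion
        (fun g => N6set (two (Mk g B) (S B) i j))).card ≤ ∑ j ∈ (univ.erase i : Finset (Fin 6)),
        ∑ g ∈ R2 G B, N6 ![Mk g B, Mk g B, S B, S B, S B, S B] := by
      refine Finset.sum_le_sum fun j hj => ?_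
      refine card_biUnion_le.trans (Finset.sum_le_sum fun g _ => le_of_eq ?_)
      exact N6_two _ _ (mem_erase.mp hj).1
    refine h5.trans (le_of_eq ?_)
    rw [Finset.sum_const, hcard, smul_eq_mul]
  · refine card_biUnion_le.trans (Finset.sum_le_sum fun k _ => le_of_eq ?_)
    exact N6_one _ _ i

end SixCubes
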