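import Pool.Agent.Lib.MP_e471a0_nt.Link

set_option autoImplicit false

/-!
The bounds with real exponents: `N_1(m)`, `J`, and the counts with one or two restricted
coordinates.
-/

open Finset

namespace SixCubes

variable {T D B : ℕ}

lemma one_le_D (hD : DivB T D) (hT : 1 ≤ T) : 1 ≤ D := by
  have := hD 1 one_ne_zero hT
  simpa using this

lemma p_real {m : ℕ} (hm : 1 ≤ m) (hmB : m ≤ B) :
    ((2 * (B / m) + 1 : ℕ) : ℝ) ≤ 3 * ((B : ℝ) / m) := by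
  have hm' : (0 : ℝ) < m := by exact_mod_cast hm
  have h1 : ((B / m : ℕ) : ℝ) ≤ (B : ℝ) / m := Nat.cast_div_le
  have h2 : (1 : ℝ) ≤ (B : ℝ) / m := by
    rw [le_div_iff₀ hm', one_mul]; exact_mod_cast hmB
  push_cast
  linarith

lemma E_real {m : ℕ} (hD : DivB T D) (hT : 100 * B ^ 3 ≤ T) (hm : 1 ≤ m) (hmB : m ≤ B) :
    (E (B / m) : ℝ) ≤ 45 * D * ((B : ℝ) / m) ^ 2 := by
  have hB : 1 ≤ B := hm.trans hmB
  have hP : (B / m) ^ 3 ≤ B ^ 3 := Nat.pow_le_pow_left (Nat.div_le_self _ _) 3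
  have hB3 : 1 ≤ B ^ 3 := Nat.one_le_pow _ _ hB
  have h1 := E_le hD (P := B / m) (by omega)
  have hD1 : 1 ≤ D := one_le_D hD (by omega)
  have h2 : (E (B / m) : ℝ) ≤ ((2 * (B / m) + 1 : ℕ) : ℝ) ^ 2 * (1 + 4 * D) := by
    exact_mod_cast h1
  have h3 := p_real hm hmB
  have h4 : ((2 * (B / m) + 1 : ℕ) : ℝ) ^ 2 ≤ (3 * ((B : ℝ) / m)) ^ 2 :=
    pow_le_pow_left₀ (Nat.cast_nonneg _) h3 2
  have hD2 : (1 : ℝ) ≤ D := by exact_mod_cast hD1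
  calc (E (B / m) : ℝ) ≤ ((2 * (B / m) + 1 : ℕ) : ℝ) ^ 2 * (1 + 4 * D) := h2
    _ ≤ (3 * ((B : ℝ) / m)) ^ 2 * (5 * D) := by
        apply mul_le_mul h4 (by linarith) (by positivity) (by positivity)
    _ = _ := by ring

lemma H_real (B m : ℕ) :
    ((Hs m B).card : ℝ) ≤ 4 * ((B : ℝ) / m ^ 3) := by
  rw [card_Hs]
  have h1 : ((2 * B / m ^ 3 : ℕ) : ℝ) ≤ ((2 * B : ℕ) : ℝ) / ((m ^ 3 : ℕ) : ℝ) := Nat.cast_div_le
  push_cast at h1 ⊢
  have h2 : 2 * (B : ℝ) / (m : ℝ) ^ 3 = 2 * ((B : ℝ) / m ^ 3) := by ring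
  rw [h2] at h1
  linarith

lemma sq_rpow_half {x : ℝ} (hx : 0 ≤ x) (n : ℕ) (a : ℝ) (ha : a * 2 = n) :
    (x ^ a) ^ 2 = x ^ n := by
  have h2 : a * ((2 : ℕ) : ℝ) = n := by exact_mod_cast ha
  rw [← Real.rpow_natCast (x ^ a) 2, ← Real.rpow_mul hx, ← Real.rpow_natCast x n, h2]

theorem N1_real {m : ℕ} (hD : DivB T D) (hT : 100 * B ^ 3 ≤ T) (hm : 1 ≤ m) (hmB : m ≤ B) :
    ((N1set m B (B / m)).card : ℝ) ≤
      620 * (D : ℝ) ^ 2 * ((B : ℝ) ^ 3 / (m : ℝ) ^ 2 +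
        (B : ℝ) ^ (7 / 2 : ℝ) * ((m : ℝ) ^ (9 / 2 : ℝ))⁻¹) := by
  have hB : 1 ≤ B := hm.trans hmB
  have hP : (B / m) ^ 3 ≤ B ^ 3 := Nat.pow_le_pow_left (Nat.div_le_self _ _) 3
  have hB3 : 1 ≤ B ^ 3 := Nat.one_le_pow _ _ hB
  have hD1 : 1 ≤ D := one_le_D hD (by omega)
  have hD2 : (1 : ℝ) ≤ D := by exact_mod_cast hD1
  have hm' : (1 : ℝ) ≤ m := by exact_mod_cast hm
  have hm0 : (0 : ℝ) < m := by linarith
  have hB' : (1 : ℝ) ≤ B := by exact_mod_cast hB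
  have hB0 : (0 : ℝ) < B := by linarith
  have hE := E_real hD hT hm hmB
  have hH := H_real B m
  have hp := p_real hm hmB
  have hE0 : (0 : ℝ) ≤ E (B / m) := Nat.cast_nonneg _
  have hH0 : (0 : ℝ) ≤ (Hs m B).card := Nat.cast_nonneg _
  -- diagonal
  have hdiag : ((N1diag m B (B / m)).card : ℝ) ≤ 135 * D * (B ^ 3 / m ^ 2) := by
    have h1 : ((N1diag m B (B / m)).card : ℝ) ≤ (2 * B + 1) * E (B / m) := by
      exact_mod_cast diag_le (B := B) (P := B / m) hm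
    calc ((N1diag m B (B / m)).card : ℝ) ≤ (2 * B + 1) * E (B / m) := h1
      _ ≤ (3 * B) * (45 * D * ((B : ℝ) / m) ^ 2) := by
          apply mul_le_mul (by linarith) hE hE0 (by positivity)
      _ = _ := by field_simp; ring
  -- off diagonal
  have hoff : ((N1off m B (B / m)).card : ℝ) ≤
      620 * (D : ℝ) ^ 2 * ((B : ℝ) ^ (7 / 2 : ℝ) * ((m : ℝ) ^ (9 / 2 : ℝ))⁻¹) := by
    have h1 : ((N1off m B (B / m)).card : ℝ) ^ 2 ≤
        (2 * ((Hs m B).card * ((4 * B + 1) * E (B / m))) +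
          (2 * D) ^ 2 * ((2 * (B / m) + 1 : ℕ) : ℝ) ^ 4) * ((Hs m B).card * E (B / m)) := by
      have := off_sq_le (B := B) (P := B / m) hm hD (by omega)
      exact_mod_cast this
    have h2 : (2 * ((Hs m B).card * ((4 * B + 1) * E (B / m))) +
          (2 * D) ^ 2 * ((2 * (B / m) + 1 : ℕ) : ℝ) ^ 4) * ((Hs m B).card * E (B / m)) ≤
        (2 * ((4 * ((B : ℝ) / m ^ 3)) * ((5 * B) * (45 * D * ((B : ℝ) / m) ^ 2))) +
          (2 * D) ^ 2 * (3 * ((B : ℝ) / m)) ^ 4) * ((4 * ((B : ℝ) / m ^ 3)) *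
            (45 * D * ((B : ℝ) / m) ^ 2)) := by
      apply mul_le_mul _ _ (by positivity) (by positivity)
      · apply add_le_add
        · apply mul_le_mul_of_nonneg_left _ (by norm_num)
          apply mul_le_mul hH _ (by positivity) (by positivity)
          apply mul_le_mul (by linarith) hE hE0 (by positivity)
        · apply mul_le_mul_of_nonneg_left _ (by positivity)
          exact pow_le_pow_left₀ (Nat.cast_nonneg _) hp 4
      · exact mul_le_mul hH hE hE0 (by positivity)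
    have h3 : (2 * ((4 * ((B : ℝ) / m ^ 3)) * ((5 * B) * (45 * D * ((B : ℝ) / m) ^ 2))) +
          (2 * D) ^ 2 * (3 * ((B : ℝ) / m)) ^ 4) * ((4 * ((B : ℝ) / m ^ 3)) *
            (45 * D * ((B : ℝ) / m) ^ 2)) ≤ 382320 * (D : ℝ) ^ 3 * (B ^ 7 / m ^ 9) := by
      have e : (2 * ((4 * ((B : ℝ) / m ^ 3)) * ((5 * B) * (45 * D * ((B : ℝ) / m) ^ 2))) +
          (2 * D) ^ 2 * (3 * ((B : ℝ) / m)) ^ 4) * ((4 * ((B : ℝ) / m ^ 3)) *
            (45 * D * ((B : ℝ) / m) ^ 2)) =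
          (1800 * (D : ℝ) / m + 324 * (D : ℝ) ^ 2) * (180 * D) * (B ^ 7 / m ^ 9) := by
        field_simp
        ring
      rw [e]
      have h4 : (D : ℝ) / m ≤ D ^ 2 := by
        rw [div_le_iff₀ hm0]
        nlinarith
      have h5 : (1800 * (D : ℝ) / m + 324 * (D : ℝ) ^ 2) * (180 * D) ≤ 382320 * (D : ℝ) ^ 3 := by
        have : 1800 * (D : ℝ) / m = 1800 * ((D : ℝ) / m) := by ring
        rw [this]
        nlinarith
      exact mul_le_mul_of_nonneg_right h5 (by positivity)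
    have h6 : (620 * (D : ℝ) ^ 2 * ((B : ℝ) ^ (7 / 2 : ℝ) * ((m : ℝ) ^ (9 / 2 : ℝ))⁻¹)) ^ 2 =
        384400 * (D : ℝ) ^ 4 * (B ^ 7 / m ^ 9) := by
      rw [mul_pow, mul_pow, mul_pow (((B : ℝ) ^ (7 / 2 : ℝ))), inv_pow,
        sq_rpow_half hB0.le 7 _ (by norm_num), sq_rpow_half hm0.le 9 _ (by norm_num)]
      ring
    have h7 : 382320 * (D : ℝ) ^ 3 * (B ^ 7 / m ^ 9) ≤ 384400 * (D : ℝ) ^ 4 * (B ^ 7 / m ^ 9) := by
      apply mul_le_mul_of_nonneg_right _ (by positivity)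
      have : (D : ℝ) ^ 4 = D ^ 3 * D := by ring
      rw [this]
      have h8 : (0 : ℝ) ≤ (D : ℝ) ^ 3 := by positivity
      nlinarith
    have h9 : ((N1off m B (B / m)).card : ℝ) ^ 2 ≤
        (620 * (D : ℝ) ^ 2 * ((B : ℝ) ^ (7 / 2 : ℝ) * ((m : ℝ) ^ (9 / 2 : ℝ))⁻¹)) ^ 2 := by
      rw [h6]
      linarith
    exact (pow_le_pow_iff_left₀ (Nat.cast_nonneg _) (by positivity) two_ne_zero).mp h9
  have hc : ((N1set m B (B / m)).card : ℝ) =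
      (N1diag m B (B / m)).card + (N1off m B (B / m)).card := by
    exact_mod_cast card_N1 m B (B / m)
  rw [hc, mul_add]
  have h10 : 135 * (D : ℝ) * (B ^ 3 / m ^ 2) ≤ 620 * (D : ℝ) ^ 2 * ((B : ℝ) ^ 3 / (m : ℝ) ^ 2) := by
    apply mul_le_mul_of_nonneg_right _ (by positivity)
    nlinarith
  linarith

theorem J_real (hD : DivB T D) (hT : 100 * B ^ 3 ≤ T) (hB : 1 ≤ B) :
    (J B : ℝ) ≤ 1240 * (D : ℝ) ^ 2 * (B : ℝ) ^ (7 / 2 : ℝ) := by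
  have h1 : (J B : ℝ) ≤ ((N1set 1 B B).card : ℝ) := by exact_mod_cast link_J B
  have h2 := N1_real hD hT (m := 1) le_rfl hB
  rw [Nat.div_one] at h2
  have hB' : (1 : ℝ) ≤ B := by exact_mod_cast hB
  have h3 : (B : ℝ) ^ 3 ≤ (B : ℝ) ^ (7 / 2 : ℝ) := by
    rw [← Real.rpow_natCast]
    exact Real.rpow_le_rpow_of_exponent_le hB' (by norm_num)
  simp only [Nat.cast_one, one_pow, div_one, Real.one_rpow, inv_one, mul_one] at h2
  have h4 : 620 * (D : ℝ) ^ 2 * ((B : ℝ) ^ 3 + (B : ℝ) ^ (7 / 2 : ℝ)) ≤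
      620 * (D : ℝ) ^ 2 * ((B : ℝ) ^ (7 / 2 : ℝ) + (B : ℝ) ^ (7 / 2 : ℝ)) := by
    apply mul_le_mul_of_nonneg_left _ (by positivity)
    linarith
  linarith

end SixCubes
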