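import Mathlib

set_option autoImplicit false

/-!
Pure inequalities between real numbers used for the bounds.
-/

namespace SixCubes

lemma rpow_pow {x : ℝ} (hx : 0 ≤ x) (n : ℕ) (a b : ℝ) (ha : a * n = b) :
    (x ^ a) ^ n = x ^ b := by
  rw [← Real.rpow_natCast (x ^ a) n, ← Real.rpow_mul hx, ha]

lemma real_eA {e N J D B m : ℝ} (he : 0 ≤ e) (hJ0 : 0 ≤ J) (hD2 : 1 ≤ D)
    (hB0 : 0 < B) (hm0 : 0 < m)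
    (h7 : e ^ 4 ≤ D ^ 2 * N * J ^ 3)
    (hN : N ≤ 620 * D ^ 2 * (B ^ 3 / m ^ 2 + B ^ (7 / 2 : ℝ) * (m ^ (9 / 2 : ℝ))⁻¹))
    (hJ : J ≤ 1240 * D ^ 2 * B ^ (7 / 2 : ℝ)) :
    e ≤ 1240 * D ^ 3 * (B ^ (27 / 8 : ℝ) * (m ^ (1 / 2 : ℝ))⁻¹ +
        B ^ (7 / 2 : ℝ) * (m ^ (9 / 8 : ℝ))⁻¹) := by
  have hJ3 : J ^ 3 ≤ (1240 * D ^ 2 * B ^ (7 / 2 : ℝ)) ^ 3 :=
    pow_le_pow_left₀ hJ0 hJ 3
  have hu4 : (B ^ (27 / 8 : ℝ) * (m ^ (1 / 2 : ℝ))⁻¹) ^ 4 =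
      B ^ (27 / 2 : ℝ) * (m ^ 2)⁻¹ := by
    rw [mul_pow, inv_pow, rpow_pow hB0.le 4 (27 / 8) (27 / 2) (by norm_num),
      rpow_pow hm0.le 4 (1 / 2) 2 (by norm_num), Real.rpow_two]
  have hv4 : (B ^ (7 / 2 : ℝ) * (m ^ (9 / 8 : ℝ))⁻¹) ^ 4 =
      B ^ (14 : ℝ) * (m ^ (9 / 2 : ℝ))⁻¹ := by
    rw [mul_pow, inv_pow, rpow_pow hB0.le 4 (7 / 2) 14 (by norm_num),
      rpow_pow hm0.le 4 (9 / 8) (9 / 2) (by norm_num)]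
  have hB21 : (B ^ (7 / 2 : ℝ)) ^ 3 = B ^ (21 / 2 : ℝ) :=
    rpow_pow hB0.le 3 (7 / 2) (21 / 2) (by norm_num)
  have e1 : B ^ 3 * B ^ (21 / 2 : ℝ) = B ^ (27 / 2 : ℝ) := by
    rw [← Real.rpow_natCast, ← Real.rpow_add hB0]
    norm_num
  have e2 : B ^ (7 / 2 : ℝ) * B ^ (21 / 2 : ℝ) = B ^ (14 : ℝ) := by
    rw [← Real.rpow_add hB0]
    norm_num
  have hu0 : 0 ≤ B ^ (27 / 8 : ℝ) * (m ^ (1 / 2 : ℝ))⁻¹ := by positivity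
  have hv0 : 0 ≤ B ^ (7 / 2 : ℝ) * (m ^ (9 / 8 : ℝ))⁻¹ := by positivity
  generalize hu : B ^ (27 / 8 : ℝ) * (m ^ (1 / 2 : ℝ))⁻¹ = u at *
  generalize hv : B ^ (7 / 2 : ℝ) * (m ^ (9 / 8 : ℝ))⁻¹ = v at *
  have h8 : e ^ 4 ≤ (1240 * D ^ 3 * (u + v)) ^ 4 := by
    calc e ^ 4 ≤ D ^ 2 * N * J ^ 3 := h7
      _ ≤ D ^ 2 * (620 * D ^ 2 * (B ^ 3 / m ^ 2 + B ^ (7 / 2 : ℝ) * (m ^ (9 / 2 : ℝ))⁻¹)) *
          (1240 * D ^ 2 * B ^ (7 / 2 : ℝ)) ^ 3 := by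
          apply mul_le_mul _ hJ3 (by positivity) (by positivity)
          exact mul_le_mul_of_nonneg_left hN (by positivity)
      _ = 620 * 1240 ^ 3 * D ^ 10 * ((B ^ 3 * (B ^ (7 / 2 : ℝ)) ^ 3) * (m ^ 2)⁻¹ +
            (B ^ (7 / 2 : ℝ) * (B ^ (7 / 2 : ℝ)) ^ 3) * (m ^ (9 / 2 : ℝ))⁻¹) := by
          rw [div_eq_mul_inv]; ring
      _ = 620 * 1240 ^ 3 * D ^ 10 * (u ^ 4 + v ^ 4) := by
          rw [hB21, e1, e2, hu4, hv4]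
      _ ≤ 1240 ^ 4 * D ^ 12 * (u + v) ^ 4 := by
          have i1 : D ^ 10 ≤ D ^ 12 := pow_le_pow_right₀ hD2 (by norm_num)
          have i2 : u ^ 4 + v ^ 4 ≤ (u + v) ^ 4 := by
            have : (u + v) ^ 4 = u ^ 4 + v ^ 4 + (4 * u ^ 3 * v + 6 * u ^ 2 * v ^ 2 +
              4 * u * v ^ 3) := by ring
            rw [this]
            have : 0 ≤ 4 * u ^ 3 * v + 6 * u ^ 2 * v ^ 2 + 4 * u * v ^ 3 := by positivity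
            linarith
          apply mul_le_mul _ i2 (by positivity) (by positivity)
          apply mul_le_mul _ i1 (by positivity) (by positivity)
          norm_num
      _ = _ := by ring
  exact (pow_le_pow_iff_left₀ he (by positivity) four_ne_zero).mp h8

lemma real_a {a c J D B k : ℝ} (ha : 0 ≤ a) (hJ0 : 0 ≤ J)
    (hB0 : 0 < B) (hk0 : 0 < k)
    (h6 : a ^ 3 ≤ c * J ^ 2)
    (hc : c ≤ 1240 * D ^ 2 * (B / k) ^ (7 / 2 : ℝ))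
    (hJ : J ≤ 1240 * D ^ 2 * B ^ (7 / 2 : ℝ)) :
    a ≤ 1240 * D ^ 2 * B ^ (7 / 2 : ℝ) * (k ^ (7 / 6 : ℝ))⁻¹ := by
  have h7 : a ^ 3 ≤ (1240 * D ^ 2 * B ^ (7 / 2 : ℝ) * (k ^ (7 / 6 : ℝ))⁻¹) ^ 3 := by
    calc a ^ 3 ≤ c * J ^ 2 := h6
      _ ≤ (1240 * D ^ 2 * (B / k) ^ (7 / 2 : ℝ)) * (1240 * D ^ 2 * B ^ (7 / 2 : ℝ)) ^ 2 := by
          apply mul_le_mul hc (pow_le_pow_left₀ hJ0 hJ 2) (by positivity) (by positivity)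
      _ = (1240 * D ^ 2 * B ^ (7 / 2 : ℝ)) ^ 3 * (k ^ (7 / 2 : ℝ))⁻¹ := by
          rw [Real.div_rpow hB0.le hk0.le]
          ring
      _ = _ := by
          rw [mul_pow _ ((k ^ (7 / 6 : ℝ))⁻¹), inv_pow,
            rpow_pow hk0.le 3 (7 / 6) (7 / 2) (by norm_num)]
  exact (pow_le_pow_iff_left₀ ha (by positivity) three_ne_zero).mp h7

lemma real_e {e a J D B k : ℝ} (he : 0 ≤ e) (hJ0 : 0 ≤ J)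
    (hB0 : 0 < B) (hk0 : 0 < k)
    (h4 : e ^ 2 ≤ a * J)
    (h2 : a ≤ 1240 * D ^ 2 * B ^ (7 / 2 : ℝ) * (k ^ (7 / 6 : ℝ))⁻¹)
    (hJ : J ≤ 1240 * D ^ 2 * B ^ (7 / 2 : ℝ)) :
    e ≤ 1240 * D ^ 2 * B ^ (7 / 2 : ℝ) * (k ^ (7 / 12 : ℝ))⁻¹ := by
  have h7 : e ^ 2 ≤ (1240 * D ^ 2 * B ^ (7 / 2 : ℝ) * (k ^ (7 / 12 : ℝ))⁻¹) ^ 2 := by
    calc e ^ 2 ≤ a * J := h4
      _ ≤ (1240 * D ^ 2 * B ^ (7 / 2 : ℝ) * (k ^ (7 / 6 : ℝ))⁻¹) *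
          (1240 * D ^ 2 * B ^ (7 / 2 : ℝ)) := mul_le_mul h2 hJ hJ0 (by positivity)
      _ = (1240 * D ^ 2 * B ^ (7 / 2 : ℝ)) ^ 2 * (k ^ (7 / 6 : ℝ))⁻¹ := by ring
      _ = _ := by
          rw [mul_pow _ ((k ^ (7 / 12 : ℝ))⁻¹), inv_pow,
            rpow_pow hk0.le 2 (7 / 12) (7 / 6) (by norm_num)]
  exact (pow_le_pow_iff_left₀ he (by positivity) two_ne_zero).mp h7

end SixCubes
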