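import Pool.Agent.Lib.MP_e471a0_nt.Bounds
import Pool.Agent.Lib.MP_e471a0_nt.RealIneq

set_option autoImplicit false

/-!
The counts with one or two restricted coordinates (STEP 3, end, and STEP 4).
-/

open Finset

namespace SixCubes

variable {T D B : ℕ}

lemma permAM (M A : Finset ℤ) : N6 ![M, M, M, M, A, A] = N6 ![A, M, M, A, M, M] := by
  have h1 : N6 ![M, M, M, M, A, A] = N6 ![A, M, M, M, M, A] := by
    refine N6_perm' _ _ (Equiv.swap 0 4) fun i => ?_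
    fin_cases i <;> simp [Equiv.swap_apply_def]
  have h2 : N6 ![A, M, M, M, M, A] = N6 ![A, M, M, A, M, M] := by
    refine N6_perm' _ _ (Equiv.swap 3 5) fun i => ?_
    fin_cases i <;> simp [Equiv.swap_apply_def]
  rw [h1, h2]

lemma N6_mono6 {A0 A1 A2 A3 A4 A5 C0 C1 C2 C3 C4 C5 : Finset ℤ} (h0 : A0 ⊆ C0) (h1 : A1 ⊆ C1)
    (h2 : A2 ⊆ C2) (h3 : A3 ⊆ C3) (h4 : A4 ⊆ C4) (h5 : A5 ⊆ C5) :
    N6 ![A0, A1, A2, A3, A4, A5] ≤ N6 ![C0, C1, C2, C3, C4, C5] := by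
  apply N6_mono
  intro i
  fin_cases i
  · exact h0
  · exact h1
  · exact h2
  · exact h3
  · exact h4
  · exact h5

/-- the chain of Cauchy-Schwarz inequalities for one restricted coordinate -/
lemma chain_e {e a b j L : ℕ} (h1 : e ^ 2 ≤ a * j) (h2 : a ^ 2 ≤ b * j) (h4 : j ≤ L) {q : ℕ}
    (h5 : b ≤ q) : e ^ 4 ≤ q * L ^ 3 := by
  calc e ^ 4 = (e ^ 2) ^ 2 := by ring
    _ ≤ (a * j) ^ 2 := Nat.pow_le_pow_left h1 2
    _ = a ^ 2 * j ^ 2 := by ring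
    _ ≤ (b * j) * j ^ 2 := Nat.mul_le_mul_right _ h2
    _ = b * j ^ 3 := by ring
    _ ≤ _ := Nat.mul_le_mul h5 (Nat.pow_le_pow_left h4 3)

lemma chain_a {a b c L : ℕ} (h2 : a ^ 2 ≤ b * L) (h3 : b ^ 2 ≤ c * a) : a ^ 3 ≤ c * L ^ 2 := by
  rcases Nat.eq_zero_or_pos a with h0 | h0
  · rw [h0]; simp
  · have h5 : a * a ^ 3 ≤ a * (c * L ^ 2) := by
      calc a * a ^ 3 = (a ^ 2) ^ 2 := by ring
        _ ≤ (b * L) ^ 2 := Nat.pow_le_pow_left h2 2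
        _ = b ^ 2 * L ^ 2 := by ring
        _ ≤ (c * a) * L ^ 2 := Nat.mul_le_mul_right _ h3
        _ = _ := by ring
    exact Nat.le_of_mul_le_mul_left h5 h0

theorem eA_real {m : ℕ} (hD : DivB T D) (hT : 100 * B ^ 3 ≤ T) (hm : 1 ≤ m) (hmB : m ≤ B)
    (h3 : ¬ 3 ∣ m) :
    (N6 ![Mk m B, Ak m B, Ak m B, Ak m B, Ak m B, Ak m B] : ℝ) ≤
      1240 * (D : ℝ) ^ 3 * ((B : ℝ) ^ (27 / 8 : ℝ) * ((m : ℝ) ^ (1 / 2 : ℝ))⁻¹ +
        (B : ℝ) ^ (7 / 2 : ℝ) * ((m : ℝ) ^ (9 / 8 : ℝ))⁻¹) := by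
  have hB : 1 ≤ B := hm.trans hmB
  have hB3 : B ≤ B ^ 3 := Nat.le_self_pow (by norm_num) _
  have hD1 : 1 ≤ D := one_le_D hD (by omega)
  have h1 := hold1 (symSet_Mk m B) (symSet_Ak m B)
  have h2 := hold2 (symSet_Mk m B) (symSet_Ak m B)
  have h4 : N6 ![Ak m B, Ak m B, Ak m B, Ak m B, Ak m B, Ak m B] ≤ J B :=
    N6_mono6 (Ak_sub _ _) (Ak_sub _ _) (Ak_sub _ _) (Ak_sub _ _) (Ak_sub _ _) (Ak_sub _ _)
  have h5 : N6 ![Mk m B, Mk m B, Mk m B, Mk m B, Ak m B, Ak m B] ≤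
      D ^ 2 * (N1set m B (B / m)).card := by
    rw [permAM]
    exact (link_N1 hm h3).trans (Nat.mul_le_mul_right _
      (three_pow_omega_le hD (by omega) (by omega)))
  have h6 := chain_e h1 h2 h4 h5
  have hN := N1_real hD hT hm hmB
  have hJ := J_real hD hT hB
  generalize N6 ![Mk m B, Ak m B, Ak m B, Ak m B, Ak m B, Ak m B] = e at h6 ⊢
  generalize (N1set m B (B / m)).card = n at h6 hN
  generalize J B = j at h6 hJ
  exact real_eA (Nat.cast_nonneg e) (Nat.cast_nonneg j) (by exact_mod_cast hD1)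
    (by exact_mod_cast hB) (by exact_mod_cast hm) (by exact_mod_cast h6) hN hJ

theorem a_real {k : ℕ} (hD : DivB T D) (hT : 100 * B ^ 3 ≤ T) (hk : 1 ≤ k) (hkB : k ≤ B) :
    (N6 ![Mk k B, Mk k B, S B, S B, S B, S B] : ℝ) ≤
      1240 * (D : ℝ) ^ 2 * (B : ℝ) ^ (7 / 2 : ℝ) * ((k : ℝ) ^ (7 / 6 : ℝ))⁻¹ := by
  have hB : 1 ≤ B := hk.trans hkB
  have h2 := hold2 (symSet_Mk k B) (symSet_S B)
  have h3 := hold3 (symSet_Mk k B) (symSet_S B)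
  have h4 := chain_a h2 h3
  have hdiv : 1 ≤ B / k := (Nat.one_le_div_iff hk).mpr hkB
  have g1 := link_scale (B := B) hk
  have hP : (B / k) ^ 3 ≤ B ^ 3 := Nat.pow_le_pow_left (Nat.div_le_self _ _) 3
  have g2 := J_real (B := B / k) hD (by omega) hdiv
  have g3 : ((B / k : ℕ) : ℝ) ^ (7 / 2 : ℝ) ≤ ((B : ℝ) / k) ^ (7 / 2 : ℝ) :=
    Real.rpow_le_rpow (Nat.cast_nonneg _) Nat.cast_div_le (by norm_num)
  have hJ : (N6 ![S B, S B, S B, S B, S B, S B] : ℝ) ≤ _ := J_real hD hT hB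
  generalize N6 ![Mk k B, Mk k B, S B, S B, S B, S B] = a at h4 ⊢
  generalize N6 ![Mk k B, Mk k B, Mk k B, Mk k B, Mk k B, Mk k B] = c at h4 g1
  generalize J (B / k) = j' at g1 g2
  generalize N6 ![S B, S B, S B, S B, S B, S B] = j at h4 hJ
  have hc : (c : ℝ) ≤ 1240 * (D : ℝ) ^ 2 * ((B : ℝ) / k) ^ (7 / 2 : ℝ) := by
    calc (c : ℝ) ≤ (j' : ℝ) := by exact_mod_cast g1
      _ ≤ _ := g2
      _ ≤ _ := mul_le_mul_of_nonneg_left g3 (by positivity)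
  exact real_a (Nat.cast_nonneg a) (Nat.cast_nonneg j) (by exact_mod_cast hB)
    (by exact_mod_cast hk) (by exact_mod_cast h4) hc hJ

theorem e_real {k : ℕ} (hD : DivB T D) (hT : 100 * B ^ 3 ≤ T) (hk : 1 ≤ k) (hkB : k ≤ B) :
    (N6 ![Mk k B, S B, S B, S B, S B, S B] : ℝ) ≤
      1240 * (D : ℝ) ^ 2 * (B : ℝ) ^ (7 / 2 : ℝ) * ((k : ℝ) ^ (7 / 12 : ℝ))⁻¹ := by
  have hB : 1 ≤ B := hk.trans hkB
  have h1 := hold1 (symSet_Mk k B) (symSet_S B)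
  have h2 := a_real hD hT hk hkB
  have h3 : (N6 ![S B, S B, S B, S B, S B, S B] : ℝ) ≤ _ := J_real hD hT hB
  generalize N6 ![Mk k B, S B, S B, S B, S B, S B] = e at h1 ⊢
  generalize N6 ![Mk k B, Mk k B, S B, S B, S B, S B] = a at h1 h2
  generalize N6 ![S B, S B, S B, S B, S B, S B] = j at h1 h3
  exact real_e (Nat.cast_nonneg e) (Nat.cast_nonneg j) (by exact_mod_cast hB)
    (by exact_mod_cast hk) (by exact_mod_cast h1) h2 h3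

end SixCubes
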