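import Pool.Agent.Lib.MP_e471a0_nt.Count

set_option autoImplicit false

/-!
The core count: pairs `(x, n1, n2)`, `(y, n3, n4)` with
`x^3 + m^3 (n1^3 + n2^3) = y^3 + m^3 (n3^3 + n4^3)` and `x = y mod m^3`.
-/

open Finset

namespace SixCubes

/-- the integers of absolute value at most `B` -/
noncomputable def S (B : ℕ) : Finset ℤ := Finset.Icc (-(B : ℤ)) B

lemma mem_S {B : ℕ} {x : ℤ} : x ∈ S B ↔ |x| ≤ B := by
  simp [S, abs_le]

lemma card_S (B : ℕ) : (S B).card = 2 * B + 1 := by
  simp only [S, Int.card_Icc]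
  omega

lemma neg_mem_S {B : ℕ} {x : ℤ} : -x ∈ S B ↔ x ∈ S B := by
  simp [mem_S]

def c2 (n : ℤ × ℤ) : ℤ := n.1 ^ 3 + n.2 ^ 3

/-- the number of solutions of `n1^3+n2^3=n3^3+n4^3` -/
noncomputable def E (P : ℕ) : ℕ := (eqPairs (S P ×ˢ S P) (S P ×ˢ S P) c2 c2).card

/-- all numbers up to `T` have at most `D` divisors -/
def DivB (T D : ℕ) : Prop := ∀ t : ℕ, t ≠ 0 → t ≤ T → t.divisors.card ≤ D

def idiv (t : ℤ) : Finset ℤ :=
  (t.natAbs.divisors.image (fun d : ℕ => (d : ℤ))) ∪
    (t.natAbs.divisors.image (fun d : ℕ => -(d : ℤ)))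

lemma mem_idiv {t a : ℤ} (ht : t ≠ 0) (h : a ∣ t) : a ∈ idiv t := by
  have h1 : a.natAbs ∈ t.natAbs.divisors :=
    Nat.mem_divisors.mpr ⟨Int.natAbs_dvd_natAbs.mpr h, by simpa using ht⟩
  rcases Int.natAbs_eq a with h2 | h2
  · exact mem_union_left _ (mem_image.mpr ⟨a.natAbs, h1, h2.symm⟩)
  · exact mem_union_right _ (mem_image.mpr ⟨a.natAbs, h1, h2.symm⟩)

lemma card_idiv {T D : ℕ} (hD : DivB T D) {t : ℤ} (ht : t ≠ 0) (hT : |t| ≤ T) :
    (idiv t).card ≤ 2 * D := by
  have h1 : t.natAbs.divisors.card ≤ D := by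
    apply hD _ (by simpa using ht)
    have : ((t.natAbs : ℕ) : ℤ) ≤ T := by rw [Int.natCast_natAbs]; exact hT
    exact_mod_cast this
  calc (idiv t).card ≤ _ + _ := card_union_le _ _
    _ ≤ t.natAbs.divisors.card + t.natAbs.divisors.card :=
        add_le_add card_image_le card_image_le
    _ ≤ 2 * D := by omega

lemma cube_inj {a b : ℤ} (h : a ^ 3 = b ^ 3) : a = b :=
  (Odd.strictMono_pow (by decide : Odd 3)).injective h

lemma c2_zero {n : ℤ × ℤ} (h : c2 n = 0) : n.2 = -n.1 := by
  apply cube_inj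
  have : n.1 ^ 3 + n.2 ^ 3 = 0 := h
  have h2 : (-n.1) ^ 3 = - n.1 ^ 3 := by ring
  rw [h2]; linarith

lemma fiber_zero (P : ℕ) : ((S P ×ˢ S P).filter (fun n => c2 n = 0)).card ≤ 2 * P + 1 := by
  rw [← card_S P]
  refine Finset.card_le_card_of_injOn (fun n => n.1) ?_ ?_
  · intro n hn
    have hn' := Finset.mem_coe.mp hn
    simp only [mem_filter, mem_product] at hn'
    exact Finset.mem_coe.mpr hn'.1.1
  · intro n hn k hk h
    have hn' := Finset.mem_coe.mp hn
    have hk' := Finset.mem_coe.mp hk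
    simp only [mem_filter, mem_product] at hn' hk'
    have h1 := c2_zero hn'.2
    have h2 := c2_zero hk'.2
    have h3 : n.1 = k.1 := h
    exact Prod.ext h3 (by rw [h1, h2, h3])

lemma fiber_ne {T D P : ℕ} (hD : DivB T D) {t : ℤ} (ht : t ≠ 0) (hT : |t| ≤ T) :
    ((S P ×ˢ S P).filter (fun n => c2 n = t)).card ≤ 4 * D := by
  have h := Finset.card_le_mul_card_image_of_maps_to
    (s := (S P ×ˢ S P).filter (fun n => c2 n = t)) (t := idiv t) (f := fun n => n.1 + n.2)
    (n := 2) ?_ ?_
  · have := card_idiv hD ht hT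
    omega
  · intro n hn
    simp only [mem_filter, mem_product] at hn
    apply mem_idiv ht
    rw [← hn.2]
    exact ⟨n.1 ^ 2 - n.1 * n.2 + n.2 ^ 2, by simp only [c2]; ring⟩
  · intro a ha
    by_cases hne : ((((S P ×ˢ S P).filter (fun n => c2 n = t)).filter
        (fun n => n.1 + n.2 = a))).Nonempty
    · obtain ⟨n, hn⟩ := hne
      simp only [mem_filter, mem_product] at hn
      have hsub : (((S P ×ˢ S P).filter (fun n => c2 n = t)).filter
        (fun n => n.1 + n.2 = a)) ⊆ {(n.1, n.2), (n.2, n.1)} := by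
        intro k hk
        simp only [mem_filter, mem_product] at hk
        have hA : a ≠ 0 := by
          intro h0
          apply ht
          have h1 : n.2 = -n.1 := by linarith [hn.2]
          rw [← hn.1.2]; simp only [c2]; rw [h1]; ring
        have e1 : n.1 ^ 3 + n.2 ^ 3 = k.1 ^ 3 + k.2 ^ 3 := by
          have := hn.1.2; have := hk.1.2; simp only [c2] at *; linarith
        have e2 : n.2 = a - n.1 := by linarith [hn.2]
        have e3 : k.2 = a - k.1 := by linarith [hk.2]
        have e4 : a * ((k.1 - n.1) * (k.1 - n.2)) = 0 := by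
          rw [e2, e3] at e1
          rw [e2]
          nlinarith [e1]
        rcases mul_eq_zero.mp e4 with h | h
        · exact absurd h hA
        · rcases mul_eq_zero.mp h with h | h
          · have h1 : k.1 = n.1 := by linarith
            simp only [mem_insert, mem_singleton]
            left
            exact Prod.ext h1 (by rw [e3, e2, h1])
          · have h1 : k.1 = n.2 := by linarith
            simp only [mem_insert, mem_singleton]
            right
            exact Prod.ext h1 (by rw [e3, h1]; linarith)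
      exact (card_le_card hsub).trans card_le_two
    · rw [not_nonempty_iff_eq_empty] at hne
      rw [hne]; simp

lemma abs_c2_le {P : ℕ} {n : ℤ × ℤ} (hn : n ∈ S P ×ˢ S P) : |c2 n| ≤ 2 * (P : ℤ) ^ 3 := by
  simp only [mem_product, mem_S] at hn
  have h1 : |n.1 ^ 3| ≤ (P : ℤ) ^ 3 := by rw [abs_pow]; gcongr; exact hn.1
  have h2 : |n.2 ^ 3| ≤ (P : ℤ) ^ 3 := by rw [abs_pow]; gcongr; exact hn.2
  calc |c2 n| ≤ |n.1 ^ 3| + |n.2 ^ 3| := abs_add_le _ _
    _ ≤ _ := by linarith

theorem E_le {T D P : ℕ} (hD : DivB T D) (hT : 2 * P ^ 3 ≤ T) :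
    E P ≤ (2 * P + 1) ^ 2 * (1 + 4 * D) := by
  set s := S P ×ˢ S P with hs
  have hcs : s.card = (2 * P + 1) ^ 2 := by
    rw [hs, card_product, card_S]; ring
  have h0 : E P = ∑ x ∈ s, (s.filter (fun y => c2 y = c2 x)).card := by
    rw [E, eqPairs, Finset.card_filter, Finset.sum_product]
    refine Finset.sum_congr rfl fun x _ => ?_
    rw [Finset.card_filter]
    refine Finset.sum_congr rfl fun y _ => ?_
    simp only [eq_comm]
  rw [h0, ← Finset.sum_filter_add_sum_filter_not s (fun x => c2 x = 0)]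
  have h1 : ∑ x ∈ s.filter (fun x => c2 x = 0), (s.filter (fun y => c2 y = c2 x)).card ≤
      (2 * P + 1) * (2 * P + 1) := by
    calc ∑ x ∈ s.filter (fun x => c2 x = 0), (s.filter (fun y => c2 y = c2 x)).card
        ≤ ∑ x ∈ s.filter (fun x => c2 x = 0), (2 * P + 1) := by
          refine Finset.sum_le_sum fun x hx => ?_
          rw [mem_filter] at hx
          rw [hx.2]; exact fiber_zero P
      _ = (s.filter (fun x => c2 x = 0)).card * (2 * P + 1) := by
          rw [Finset.sum_const, smul_eq_mul]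
      _ ≤ _ := Nat.mul_le_mul_right _ (fiber_zero P)
  have h2 : ∑ x ∈ s.filter (fun x => ¬ c2 x = 0), (s.filter (fun y => c2 y = c2 x)).card ≤
      (2 * P + 1) ^ 2 * (4 * D) := by
    calc ∑ x ∈ s.filter (fun x => ¬ c2 x = 0), (s.filter (fun y => c2 y = c2 x)).card
        ≤ ∑ x ∈ s.filter (fun x => ¬ c2 x = 0), (4 * D) := by
          refine Finset.sum_le_sum fun x hx => ?_
          rw [mem_filter] at hx
          apply fiber_ne hD hx.2
          refine (abs_c2_le hx.1).trans ?_
          exact_mod_cast hT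
      _ = (s.filter (fun x => ¬ c2 x = 0)).card * (4 * D) := by
          rw [Finset.sum_const, smul_eq_mul]
      _ ≤ _ := by
          rw [← hcs]
          exact Nat.mul_le_mul_right _ (card_filter_le _ _)
  nlinarith [h1, h2]

end SixCubes
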