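import Pool.Agent.Lib.MP_e471a0_nt.Core

set_option autoImplicit false

/-!
The core inequality: `N1 m B P ≤ (2B+1) E(P) + (H E(P) (2 H (4B+1) E(P) + 4 D^2 (2P+1)^4))^(1/2)`
with `H = 2 floor(2B/m^3)`.
-/

open Finset

namespace SixCubes

noncomputable def U (B P : ℕ) : Finset (ℤ × (ℤ × ℤ)) := S B ×ˢ (S P ×ˢ S P)

def phi (m : ℕ) (X : ℤ × (ℤ × ℤ)) : ℤ := X.1 ^ 3 + (m : ℤ) ^ 3 * c2 X.2

/-- pairs of triples with equal values and congruent first coordinates -/
noncomputable def N1set (m B P : ℕ) : Finset ((ℤ × (ℤ × ℤ)) × (ℤ × (ℤ × ℤ))) :=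
  (U B P ×ˢ U B P).filter (fun p => phi m p.1 = phi m p.2 ∧ (m : ℤ) ^ 3 ∣ p.1.1 - p.2.1)

noncomputable def N1diag (m B P : ℕ) : Finset ((ℤ × (ℤ × ℤ)) × (ℤ × (ℤ × ℤ))) :=
  (N1set m B P).filter (fun p => p.1.1 = p.2.1)

noncomputable def N1off (m B P : ℕ) : Finset ((ℤ × (ℤ × ℤ)) × (ℤ × (ℤ × ℤ))) :=
  (N1set m B P).filter (fun p => ¬ p.1.1 = p.2.1)

lemma card_N1 (m B P : ℕ) : (N1set m B P).card = (N1diag m B P).card + (N1off m B P).card :=
  (Finset.card_filter_add_card_filter_not _).symm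

lemma mem_N1set {m B P : ℕ} {p : (ℤ × (ℤ × ℤ)) × (ℤ × (ℤ × ℤ))} :
    p ∈ N1set m B P ↔ (p.1.1 ∈ S B ∧ p.1.2 ∈ S P ×ˢ S P) ∧ (p.2.1 ∈ S B ∧ p.2.2 ∈ S P ×ˢ S P) ∧
      phi m p.1 = phi m p.2 ∧ (m : ℤ) ^ 3 ∣ p.1.1 - p.2.1 := by
  constructor
  · intro h
    have h1 := mem_filter.mp h
    have h2 := mem_product.mp h1.1
    exact ⟨mem_product.mp (h2.1 : p.1 ∈ S B ×ˢ (S P ×ˢ S P)),
      mem_product.mp (h2.2 : p.2 ∈ S B ×ˢ (S P ×ˢ S P)), h1.2⟩
  · rintro ⟨h1, h2, h3⟩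
    exact mem_filter.mpr ⟨mem_product.mpr ⟨(mem_product.mpr h1 : p.1 ∈ S B ×ˢ (S P ×ˢ S P)),
      (mem_product.mpr h2 : p.2 ∈ S B ×ˢ (S P ×ˢ S P))⟩, h3⟩

lemma diag_le {m B P : ℕ} (hm : 1 ≤ m) : (N1diag m B P).card ≤ (2 * B + 1) * E P := by
  rw [E, ← card_S B, ← card_product]
  refine Finset.card_le_card_of_injOn (fun p => (p.1.1, (p.1.2, p.2.2))) ?_ ?_
  · intro p hp
    have hp' := Finset.mem_coe.mp hp
    rw [N1diag, mem_filter, mem_N1set] at hp'
    obtain ⟨⟨h1, h2, h3, h4⟩, h5⟩ := hp'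
    refine Finset.mem_coe.mpr (mem_product.mpr ⟨h1.1, ?_⟩)
    simp only [eqPairs, mem_filter]
    refine ⟨mem_product.mpr ⟨h1.2, h2.2⟩, ?_⟩
    simp only [phi, h5] at h3
    have hm3 : (m : ℤ) ^ 3 ≠ 0 := by positivity
    have h6 : (m : ℤ) ^ 3 * c2 p.1.2 = (m : ℤ) ^ 3 * c2 p.2.2 := by linarith
    exact mul_left_cancel₀ hm3 h6
  · intro p hp q hq h
    have hp' := Finset.mem_coe.mp hp
    have hq' := Finset.mem_coe.mp hq
    rw [N1diag, mem_filter] at hp' hq'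
    simp only [Prod.mk.injEq] at h
    obtain ⟨h1, h2, h3⟩ := h
    have h4 : p.2.1 = q.2.1 := by rw [← hp'.2, ← hq'.2, h1]
    exact Prod.ext (Prod.ext h1 h2) (Prod.ext h4 h3)

/-- the nonzero differences -/
noncomputable def Hs (m B : ℕ) : Finset ℤ := (S (2 * B / m ^ 3)).erase 0

lemma card_Hs (m B : ℕ) : (Hs m B).card = 2 * (2 * B / m ^ 3) := by
  rw [Hs, card_erase_of_mem (by rw [mem_S]; simp only [abs_zero]; positivity), card_S]
  omega

noncomputable def V (m B P : ℕ) : Finset (ℤ × (ℤ × (ℤ × ℤ))) :=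
  Hs m B ×ˢ (S (2 * B) ×ˢ (S P ×ˢ S P))

noncomputable def W (m B P : ℕ) : Finset (ℤ × (ℤ × ℤ)) := Hs m B ×ˢ (S P ×ˢ S P)

def FF (m : ℕ) (v : ℤ × (ℤ × (ℤ × ℤ))) : ℤ × ℤ :=
  (v.1, v.1 * (3 * v.2.1 ^ 2 + (m : ℤ) ^ 6 * v.1 ^ 2) + 4 * c2 v.2.2)

def GG (w : ℤ × (ℤ × ℤ)) : ℤ × ℤ := (w.1, 4 * c2 w.2)

lemma off_le {m B P : ℕ} (hm : 1 ≤ m) :
    (N1off m B P).card ≤ (eqPairs (V m B P) (W m B P) (FF m) GG).card := by
  have hm3 : (0 : ℤ) < (m : ℤ) ^ 3 := by positivity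
  refine Finset.card_le_card_of_injOn (fun p =>
    (((p.1.1 - p.2.1) / (m : ℤ) ^ 3, (p.1.1 + p.2.1, p.1.2)),
      ((p.1.1 - p.2.1) / (m : ℤ) ^ 3, p.2.2))) ?_ ?_
  · intro p hp
    have hp' := Finset.mem_coe.mp hp
    rw [N1off, mem_filter, mem_N1set] at hp'
    obtain ⟨⟨h1, h2, h3, h4⟩, h5⟩ := hp'
    obtain ⟨h, hh⟩ := h4
    have hdiv : (p.1.1 - p.2.1) / (m : ℤ) ^ 3 = h := by
      rw [hh]; exact Int.mul_ediv_cancel_left _ hm3.ne'
    have hx := mem_S.mp h1.1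
    have hy := mem_S.mp h2.1
    have hH : h ∈ Hs m B := by
      rw [Hs, mem_erase, mem_S]
      refine ⟨?_, ?_⟩
      · rintro rfl
        apply h5
        have : p.1.1 - p.2.1 = 0 := by rw [hh]; ring
        linarith
      · have e1 : (m : ℤ) ^ 3 * |h| ≤ 2 * B := by
          have : |p.1.1 - p.2.1| = (m : ℤ) ^ 3 * |h| := by
            rw [hh, abs_mul, abs_of_pos hm3]
          rw [← this]
          calc |p.1.1 - p.2.1| ≤ |p.1.1| + |p.2.1| := abs_sub _ _
            _ ≤ 2 * B := by linarith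
        push_cast
        rw [Int.le_ediv_iff_mul_le hm3]
        linarith
    have hs : p.1.1 + p.2.1 ∈ S (2 * B) := by
      rw [mem_S]
      push_cast
      calc |p.1.1 + p.2.1| ≤ |p.1.1| + |p.2.1| := abs_add_le _ _
        _ ≤ 2 * B := by linarith
    refine Finset.mem_coe.mpr ?_
    simp only [eqPairs, mem_filter, V, W, hdiv]
    refine ⟨mem_product.mpr ⟨mem_product.mpr ⟨hH, mem_product.mpr ⟨hs, h1.2⟩⟩,
      mem_product.mpr ⟨hH, h2.2⟩⟩, ?_⟩
    simp only [FF, GG, Prod.mk.injEq, true_and]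
    simp only [phi] at h3
    have e2 : p.1.1 = p.2.1 + (m : ℤ) ^ 3 * h := by linarith
    have e3 : (m : ℤ) ^ 3 * (h * (3 * (p.1.1 + p.2.1) ^ 2 + (m : ℤ) ^ 6 * h ^ 2) +
        4 * c2 p.1.2) = (m : ℤ) ^ 3 * (4 * c2 p.2.2) := by
      rw [e2] at h3 ⊢
      linear_combination 4 * h3
    exact mul_left_cancel₀ hm3.ne' e3
  · intro p hp q hq h
    have hp' := Finset.mem_coe.mp hp
    have hq' := Finset.mem_coe.mp hq
    rw [N1off, mem_filter, mem_N1set] at hp' hq'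
    obtain ⟨⟨-, -, -, h4⟩, -⟩ := hp'
    obtain ⟨⟨-, -, -, k4⟩, -⟩ := hq'
    simp only [Prod.mk.injEq] at h
    obtain ⟨⟨e1, e2, e3⟩, -, e4⟩ := h
    have e5 : p.1.1 - p.2.1 = q.1.1 - q.2.1 := by
      rw [← Int.mul_ediv_cancel' h4, ← Int.mul_ediv_cancel' k4, e1]
    have e6 : p.1.1 = q.1.1 := by linarith
    have e7 : p.2.1 = q.2.1 := by linarith
    exact Prod.ext (Prod.ext e6 e3) (Prod.ext e7 e4)

lemma WW_le (m B P : ℕ) : (eqPairs (W m B P) (W m B P) GG GG).card ≤ (Hs m B).card * E P := by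
  rw [E, ← card_product]
  refine Finset.card_le_card_of_injOn (fun p => (p.1.1, (p.1.2, p.2.2))) ?_ ?_
  · intro p hp
    have hp' := Finset.mem_coe.mp hp
    simp only [eqPairs, W, mem_filter, GG, Prod.mk.injEq] at hp'
    obtain ⟨h1, h2, h3⟩ := hp'
    rw [mem_product] at h1
    simp only [mem_product (s := Hs m B)] at h1
    refine Finset.mem_coe.mpr (mem_product.mpr ⟨h1.1.1, ?_⟩)
    simp only [eqPairs, mem_filter]
    exact ⟨mem_product.mpr ⟨h1.1.2, h1.2.2⟩, by linarith⟩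
  · intro p hp q hq h
    have hp' := Finset.mem_coe.mp hp
    have hq' := Finset.mem_coe.mp hq
    simp only [eqPairs, mem_filter, GG, Prod.mk.injEq] at hp' hq'
    simp only [Prod.mk.injEq] at h
    obtain ⟨h1, h2, h3⟩ := h
    have h4 : p.2.1 = q.2.1 := by rw [← hp'.2.1, ← hq'.2.1, h1]
    exact Prod.ext (Prod.ext h1 h2) (Prod.ext h4 h3)

/-- the energy of `V` -/
lemma VV_le {T D m B P : ℕ} (hD : DivB T D) (hT : 16 * P ^ 3 ≤ T) :
    (eqPairs (V m B P) (V m B P) (FF m) (FF m)).card ≤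
      2 * ((Hs m B).card * ((4 * B + 1) * E P)) + (2 * D) ^ 2 * (2 * P + 1) ^ 4 := by
  rw [← Finset.card_filter_add_card_filter_not (s := eqPairs (V m B P) (V m B P) (FF m) (FF m))
    (fun p => c2 p.1.2.2 = c2 p.2.2.2)]
  apply add_le_add
  · have hcard : 2 * ((Hs m B).card * ((4 * B + 1) * E P)) =
        ((Finset.univ : Finset Bool) ×ˢ (Hs m B ×ˢ (S (2 * B) ×ˢ
          eqPairs (S P ×ˢ S P) (S P ×ˢ S P) c2 c2))).card := by
      rw [card_product, card_product, card_product, card_S, E]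
      simp only [Finset.card_univ, Fintype.card_bool]
      ring
    rw [hcard]
    refine Finset.card_le_card_of_injOn (fun p =>
      (decide (p.1.2.1 = p.2.2.1), (p.1.1, (p.1.2.1, (p.1.2.2, p.2.2.2))))) ?_ ?_
    · intro p hp
      have hp' := Finset.mem_coe.mp hp
      simp only [eqPairs, mem_filter, FF, Prod.mk.injEq] at hp'
      obtain ⟨⟨h1, h2⟩, h3⟩ := hp'
      rw [mem_product] at h1
      simp only [V, mem_product (s := Hs m B), mem_product (s := S (2 * B))] at h1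
      refine Finset.mem_coe.mpr (mem_product.mpr ⟨mem_univ _, mem_product.mpr ⟨h1.1.1,
        mem_product.mpr ⟨h1.1.2.1, ?_⟩⟩⟩)
      simp only [eqPairs, mem_filter]
      exact ⟨mem_product.mpr ⟨h1.1.2.2, h1.2.2.2⟩, h3⟩
    · intro p hp q hq h
      have hp' := Finset.mem_coe.mp hp
      have hq' := Finset.mem_coe.mp hq
      simp only [eqPairs, mem_filter, FF, Prod.mk.injEq] at hp' hq'
      obtain ⟨⟨h1, h2⟩, h3⟩ := hp'
      obtain ⟨⟨k1, k2⟩, k3⟩ := hq'
      rw [mem_product] at h1 k1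
      simp only [V, mem_product (s := Hs m B), mem_product (s := S (2 * B))] at h1 k1
      simp only [Prod.mk.injEq] at h
      obtain ⟨e1, e2, e3, e4, e5⟩ := h
      have aux : ∀ r : (ℤ × (ℤ × (ℤ × ℤ))) × (ℤ × (ℤ × (ℤ × ℤ))), r.1.1 ∈ Hs m B →
          r.1.1 = r.2.1 → r.1.1 * (3 * r.1.2.1 ^ 2 + (m : ℤ) ^ 6 * r.1.1 ^ 2) + 4 * c2 r.1.2.2 =
            r.2.1 * (3 * r.2.2.1 ^ 2 + (m : ℤ) ^ 6 * r.2.1 ^ 2) + 4 * c2 r.2.2.2 →
          c2 r.1.2.2 = c2 r.2.2.2 → r.2.2.1 = if r.1.2.1 = r.2.2.1 then r.1.2.1 else -r.1.2.1 := by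
        intro r hr0 hr1 hr2 hr3
        have hne : r.1.1 ≠ 0 := by
          rw [Hs, mem_erase] at hr0; exact hr0.1
        rw [← hr1, ← hr3] at hr2
        have e' : 3 * (r.1.1 * ((r.1.2.1 - r.2.2.1) * (r.1.2.1 + r.2.2.1))) = 0 := by
          linear_combination hr2
        have e := (mul_eq_zero.mp e').resolve_left (by norm_num)
        rcases mul_eq_zero.mp e with h | h
        · exact absurd h hne
        · rcases mul_eq_zero.mp h with h | h
          · rw [if_pos (by linarith)]; linarith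
          · by_cases hc : r.1.2.1 = r.2.2.1
            · rw [if_pos hc]; exact hc.symm
            · rw [if_neg hc]; linarith
      have a1 := aux p h1.1.1 h2.1 h2.2 h3
      have a2 := aux q k1.1.1 k2.1 k2.2 k3
      have a3 : p.2.2.1 = q.2.2.1 := by
        rw [a1, a2, e3]
        have : (p.1.2.1 = p.2.2.1) ↔ (q.1.2.1 = q.2.2.1) := by
          simpa using e1
        by_cases hc : p.1.2.1 = p.2.2.1
        · rw [if_pos (by rw [← e3]; exact hc), if_pos (this.mp hc)]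
        · rw [if_neg (by rw [← e3]; exact hc), if_neg (fun h => hc (this.mpr h))]
      have a4 : p.2.1 = q.2.1 := by rw [← h2.1, ← k2.1, e2]
      exact Prod.ext (Prod.ext e2 (Prod.ext e3 e4)) (Prod.ext a4 (Prod.ext a3 e5))
  · set F2 := (eqPairs (V m B P) (V m B P) (FF m) (FF m)).filter
      (fun p => ¬ c2 p.1.2.2 = c2 p.2.2.2) with hF2
    have h := Finset.card_le_mul_card_image_of_maps_to
      (s := F2) (t := (S P ×ˢ S P) ×ˢ (S P ×ˢ S P)) (f := fun p => (p.1.2.2, p.2.2.2))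
      (n := (2 * D) ^ 2) ?_ ?_
    · refine h.trans (le_of_eq ?_)
      rw [card_product, card_product, card_S]
      ring
    · intro p hp
      simp only [hF2, eqPairs, mem_filter] at hp
      obtain ⟨⟨h1, -⟩, -⟩ := hp
      rw [mem_product] at h1
      simp only [V, mem_product (s := Hs m B), mem_product (s := S (2 * B))] at h1
      exact mem_product.mpr ⟨h1.1.2.2, h1.2.2.2⟩
    · intro nn hnn
      by_cases hT0 : c2 nn.2 - c2 nn.1 = 0
      · have : F2.filter (fun p => (p.1.2.2, p.2.2.2) = nn) = ∅ := by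
          rw [Finset.filter_eq_empty_iff]
          intro p hp hc
          simp only [hF2, mem_filter] at hp
          apply hp.2
          have e1 : p.1.2.2 = nn.1 := by rw [← hc]
          have e2 : p.2.2.2 = nn.2 := by rw [← hc]
          rw [e1, e2]; linarith
        rw [this]; simp
      · set t : ℤ := 4 * (c2 nn.2 - c2 nn.1) with ht
        have ht0 : t ≠ 0 := by
          rw [ht]; exact mul_ne_zero (by norm_num) hT0
        have hn := mem_product.mp hnn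
        have b1 := abs_c2_le hn.1
        have b2 := abs_c2_le hn.2
        have htT : |t| ≤ T := by
          have hT' : (16 : ℤ) * (P : ℤ) ^ 3 ≤ T := by exact_mod_cast hT
          have : |c2 nn.2 - c2 nn.1| ≤ |c2 nn.2| + |c2 nn.1| := abs_sub _ _
          rw [ht, abs_mul]
          have h4 : |(4 : ℤ)| = 4 := by norm_num
          rw [h4]
          linarith
        have hci := card_idiv hD ht0 htT
        have hcc : (idiv t ×ˢ idiv t).card ≤ (2 * D) ^ 2 := by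
          rw [card_product, sq]
          exact Nat.mul_le_mul hci hci
        refine le_trans ?_ hcc
        have key : ∀ p ∈ F2.filter (fun p => (p.1.2.2, p.2.2.2) = nn),
            p.1.1 = p.2.1 ∧ p.1.2.2 = nn.1 ∧ p.2.2.2 = nn.2 ∧
            3 * p.1.1 * (p.1.2.1 - p.2.2.1) * (p.1.2.1 + p.2.2.1) = t := by
          intro p hp
          simp only [hF2, eqPairs, mem_filter, FF, Prod.mk.injEq] at hp
          obtain ⟨⟨⟨-, h2, h3⟩, -⟩, hc⟩ := hp
          have e1 : p.1.2.2 = nn.1 := by rw [← hc]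
          have e2 : p.2.2.2 = nn.2 := by rw [← hc]
          refine ⟨h2, e1, e2, ?_⟩
          rw [← h2, e1, e2] at h3
          rw [ht]
          linear_combination h3
        refine Finset.card_le_card_of_injOn (fun p => (p.1.1, p.1.2.1 - p.2.2.1)) ?_ ?_
        · intro p hp
          obtain ⟨-, -, -, k4⟩ := key p (Finset.mem_coe.mp hp)
          refine Finset.mem_coe.mpr (mem_product.mpr ⟨mem_idiv ht0 ?_, mem_idiv ht0 ?_⟩)
          · exact ⟨3 * (p.1.2.1 - p.2.2.1) * (p.1.2.1 + p.2.2.1), by rw [← k4]; ring⟩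
          · exact ⟨3 * p.1.1 * (p.1.2.1 + p.2.2.1), by rw [← k4]; ring⟩
        · intro p hp q hq h
          obtain ⟨k1, k2, k3, k4⟩ := key p (Finset.mem_coe.mp hp)
          obtain ⟨l1, l2, l3, l4⟩ := key q (Finset.mem_coe.mp hq)
          simp only [Prod.mk.injEq] at h
          obtain ⟨e1, e2⟩ := h
          have hne : 3 * p.1.1 * (p.1.2.1 - p.2.2.1) ≠ 0 := by
            intro h0
            rw [h0, zero_mul] at k4
            exact ht0 k4.symm
          have e3 : 3 * p.1.1 * (p.1.2.1 - p.2.2.1) * (p.1.2.1 + p.2.2.1) =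
              3 * p.1.1 * (p.1.2.1 - p.2.2.1) * (q.1.2.1 + q.2.2.1) := by
            rw [k4, ← l4, e1, e2]
          have e4 := mul_left_cancel₀ hne e3
          have e5 : p.1.2.1 = q.1.2.1 := by linarith
          have e6 : p.2.2.1 = q.2.2.1 := by linarith
          have e7 : p.2.1 = q.2.1 := by rw [← k1, ← l1, e1]
          exact Prod.ext (Prod.ext e1 (Prod.ext e5 (by rw [k2, l2])))
            (Prod.ext e7 (Prod.ext e6 (by rw [k3, l3])))

/-- the core inequality, off the diagonal -/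
theorem off_sq_le {T D m B P : ℕ} (hm : 1 ≤ m) (hD : DivB T D) (hT : 16 * P ^ 3 ≤ T) :
    (N1off m B P).card ^ 2 ≤
      (2 * ((Hs m B).card * ((4 * B + 1) * E P)) + (2 * D) ^ 2 * (2 * P + 1) ^ 4) *
      ((Hs m B).card * E P) := by
  calc (N1off m B P).card ^ 2
      ≤ (eqPairs (V m B P) (W m B P) (FF m) GG).card ^ 2 := Nat.pow_le_pow_left (off_le hm) 2
    _ ≤ _ := card_eqPairs_sq_le _ _ _ _
    _ ≤ _ := Nat.mul_le_mul (VV_le hD hT) (WW_le m B P)

end SixCubes
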