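import Mathlib

set_option autoImplicit false

/-!
Counting lemmas: Cauchy-Schwarz for the number of pairs with equal values, and the refinement of
equal pairs by a second map with few values on each fibre.
-/

open Finset

namespace SixCubes

section
variable {α β γ κ : Type*} [DecidableEq γ] [DecidableEq κ]

/-- pairs with equal values -/
def eqPairs (s : Finset α) (t : Finset β) (f : α → γ) (g : β → γ) : Finset (α × β) :=
  (s ×ˢ t).filter (fun p => f p.1 = g p.2)

lemma card_eqPairs (s : Finset α) (t : Finset β) (f : α → γ) (g : β → γ) (T : Finset γ)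
    (hT : ∀ x ∈ s, f x ∈ T) :
    (eqPairs s t f g).card = ∑ c ∈ T, (s.filter (fun x => f x = c)).card *
      (t.filter (fun y => g y = c)).card := by
  have h1 : (eqPairs s t f g).card = ∑ c ∈ T, ((eqPairs s t f g).filter
      (fun p => f p.1 = c)).card := by
    apply Finset.card_eq_sum_card_fiberwise
    intro p hp
    have hp' := Finset.mem_coe.mp hp
    simp only [eqPairs, mem_filter, mem_product] at hp'
    exact Finset.mem_coe.mpr (hT _ hp'.1.1)
  rw [h1]
  refine Finset.sum_congr rfl fun c _ => ?_
  rw [← Finset.card_product]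
  congr 1
  ext p
  simp only [eqPairs, mem_filter, mem_product]
  constructor
  · rintro ⟨⟨⟨h1, h2⟩, h3⟩, h4⟩
    exact ⟨⟨h1, h4⟩, h2, by rw [← h3, h4]⟩
  · rintro ⟨⟨h1, h4⟩, h2, h5⟩
    exact ⟨⟨⟨h1, h2⟩, by rw [h4, h5]⟩, h4⟩

/-- Cauchy-Schwarz for equal pairs -/
theorem card_eqPairs_sq_le (s : Finset α) (t : Finset β) (f : α → γ) (g : β → γ) :
    (eqPairs s t f g).card ^ 2 ≤ (eqPairs s s f f).card * (eqPairs t t g g).card := by
  set T : Finset γ := s.image f ∪ t.image g with hT
  have hs : ∀ x ∈ s, f x ∈ T := fun x hx =>
    mem_union_left _ (mem_image_of_mem f hx)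
  have ht : ∀ y ∈ t, g y ∈ T := fun y hy =>
    mem_union_right _ (mem_image_of_mem g hy)
  rw [card_eqPairs s t f g T hs, card_eqPairs s s f f T hs, card_eqPairs t t g g T ht]
  have h := Finset.sum_mul_sq_le_sq_mul_sq T
    (fun c => ((s.filter (fun x => f x = c)).card : ℤ))
    (fun c => ((t.filter (fun y => g y = c)).card : ℤ))
  have h' : (((∑ c ∈ T, (s.filter (fun x => f x = c)).card *
      (t.filter (fun y => g y = c)).card) ^ 2 : ℕ) : ℤ) ≤
      (((∑ c ∈ T, (s.filter (fun x => f x = c)).card * (s.filter (fun x => f x = c)).card) *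
      (∑ c ∈ T, (t.filter (fun y => g y = c)).card * (t.filter (fun y => g y = c)).card) : ℕ) :
      ℤ) := by
    push_cast
    simpa [sq] using h
  exact_mod_cast h'

/-- if each fibre of `f` meets at most `L` classes of `r`, then the number of pairs with equal
values is at most `L` times the number of those which are also in the same class -/
theorem card_eqPairs_le_classes (s : Finset α) (f : α → γ) (r : α → κ) (L : ℕ)
    (hL : ∀ c, ((s.filter (fun x => f x = c)).image r).card ≤ L) :
    (eqPairs s s f f).card ≤
      L * (eqPairs s s (fun x => (f x, r x)) (fun x => (f x, r x))).card := by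
  set T : Finset γ := s.image f with hT
  have hs : ∀ x ∈ s, f x ∈ T := fun x hx => mem_image_of_mem f hx
  set R : Finset κ := s.image r with hR
  have hs2 : ∀ x ∈ s, (f x, r x) ∈ T ×ˢ R := fun x hx =>
    mem_product.mpr ⟨hs x hx, mem_image_of_mem r hx⟩
  rw [card_eqPairs s s f f T hs, card_eqPairs s s _ _ (T ×ˢ R) hs2, Finset.sum_product,
    Finset.mul_sum]
  refine Finset.sum_le_sum fun c _ => ?_
  have h1 : (s.filter (fun x => f x = c)).card =
      ∑ k ∈ (s.filter (fun x => f x = c)).image r,
        (s.filter (fun x => (f x, r x) = (c, k))).card := by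
    rw [Finset.card_eq_sum_card_image r]
    refine Finset.sum_congr rfl fun k _ => ?_
    congr 1
    ext x
    simp only [mem_filter, Prod.mk.injEq, and_assoc]
  have h2 : (((s.filter (fun x => f x = c)).card * (s.filter (fun x => f x = c)).card : ℕ) : ℤ) ≤
      ((((s.filter (fun x => f x = c)).image r).card *
      ∑ k ∈ (s.filter (fun x => f x = c)).image r,
        (s.filter (fun x => (f x, r x) = (c, k))).card *
        (s.filter (fun x => (f x, r x) = (c, k))).card : ℕ) : ℤ) := by
    have := sq_sum_le_card_mul_sum_sq (s := (s.filter (fun x => f x = c)).image r)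
      (f := fun k => ((s.filter (fun x => (f x, r x) = (c, k))).card : ℤ))
    rw [← sq]
    conv_lhs => rw [h1]
    push_cast
    simpa [sq] using this
  have h3 : ∑ k ∈ (s.filter (fun x => f x = c)).image r,
        (s.filter (fun x => (f x, r x) = (c, k))).card *
        (s.filter (fun x => (f x, r x) = (c, k))).card ≤
      ∑ k ∈ R, (s.filter (fun x => (f x, r x) = (c, k))).card *
        (s.filter (fun x => (f x, r x) = (c, k))).card := by
    refine Finset.sum_le_sum_of_subset ?_
    exact image_subset_image (filter_subset _ _)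
  calc (s.filter (fun x => f x = c)).card * (s.filter (fun x => f x = c)).card
      ≤ ((s.filter (fun x => f x = c)).image r).card *
      ∑ k ∈ (s.filter (fun x => f x = c)).image r,
        (s.filter (fun x => (f x, r x) = (c, k))).card *
        (s.filter (fun x => (f x, r x) = (c, k))).card := by exact_mod_cast h2
    _ ≤ L * _ := Nat.mul_le_mul (hL c) h3

end

end SixCubes
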