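import Pool.Agent.Lib.MP_e471a0_nt.Core

set_option autoImplicit false

/-!
The shape of the exceptional coordinates: a factor at most `B^η` times a product of at most four
primes, each larger than `B^(1/4-η)`; the typical solutions; the set of solutions.
-/

namespace SixCubes

/-- `|x| = s q`, `1 ≤ s ≤ B^η`, `q` a product of at most four primes, each `> B^(1/4-η)` -/
def Shape (η : ℝ) (B : ℕ) (x : ℤ) : Prop :=
  ∃ s : ℕ, ∃ l : List ℕ, 1 ≤ s ∧ (s : ℝ) ≤ (B : ℝ) ^ η ∧ l.length ≤ 4 ∧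
    (∀ p ∈ l, p.Prime ∧ (B : ℝ) ^ (1 / 4 - η) < p) ∧ x.natAbs = s * l.prod

/-- no coordinate has a divisor in `(B^η, B^(1/4-η)]`, all six are of the shape above, any two of
them have greatest common divisor at most `B^η`, and `k^2 ∣ x_i` only if `k ≤ B^η` -/
def Typ (η : ℝ) (B : ℕ) (x : Fin 6 → ℤ) : Prop :=
  (∀ i, ∀ m : ℕ, (m : ℤ) ∣ x i → ¬ ((B : ℝ) ^ η < m ∧ (m : ℝ) ≤ (B : ℝ) ^ (1 / 4 - η))) ∧
  (∀ i, Shape η B (x i)) ∧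
  (∀ i j, i ≠ j → ((Int.gcd (x i) (x j) : ℕ) : ℝ) ≤ (B : ℝ) ^ η) ∧
  (∀ i, ∀ k : ℕ, (k : ℤ) ^ 2 ∣ x i → (k : ℝ) ≤ (B : ℝ) ^ η)

/-- the solutions of `F_0(x) = 0` with all `|x_i| ≤ B` -/
noncomputable def Sol (B : ℕ) : Finset (Fin 6 → ℤ) :=
  (Fintype.piFinset fun _ : Fin 6 => Finset.Icc (-(B : ℤ)) (B : ℤ)).filter
    (fun x => x 0 ^ 3 + x 1 ^ 3 + x 2 ^ 3 = x 3 ^ 3 + x 4 ^ 3 + x 5 ^ 3)

end SixCubes
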