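import Pool.Agent.Lib.MP_e471a0_nt.Defs
import Pool.Agent.Lib.MP_7b7e48_nt.GT.RoughCount

set_option autoImplicit false

/-!
STEP 7 of CUB.md. Count of the `|x| ≤ B` of the shape: for each `s ≤ B^η` the number of `q ≤ B/s` without prime factors
`≤ B^(1/4-η)` is `≤ C (B/s)/log B` (upper bound sieve for rough numbers, `rough_count`, `z = B^(1/5) ≤ B^(1/4-η)`),
`∑_{s ≤ B^η} 1/s ≤ 1 + η log B ≤ 2 η log B` for `B ≥ B0(η)`; factor 2 for the signs.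
-/

open Finset

namespace SixCubes

open Pool.Agent.Lib.GT (Rough rough_count)

/-- a product of primes `> z` is `z`-rough -/
theorem rough_list_prod {z : ℕ} {l : List ℕ} (hl : ∀ p ∈ l, p.Prime ∧ z < p) :
    Rough z l.prod := by
  intro p hp hd
  obtain ⟨q, hq, hpq⟩ := (Prime.dvd_prod_iff hp.prime).mp hd
  rw [(Nat.prime_dvd_prime_iff_eq hp (hl q hq).1).mp hpq]
  exact (hl q hq).2

theorem card_shape_le {η : ℝ} {B z : ℕ} (hz : (z : ℝ) ≤ (B : ℝ) ^ (1 / 4 - η)) (A : Finset ℤ)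
    (hA : ∀ x ∈ A, |x| ≤ B ∧ Shape η B x) :
    A.card ≤ 2 * ∑ s ∈ Finset.Icc 1 ⌊(B : ℝ) ^ η⌋₊,
      ((Finset.Ioc 0 (0 + B / s)).filter (Rough z)).card := by
  classical
  set T : Finset (Σ _ : ℕ, ℕ) := (Finset.Icc 1 ⌊(B : ℝ) ^ η⌋₊).sigma
    (fun s => (Finset.Ioc 0 (0 + B / s)).filter (Rough z)) with hT
  have hTc : T.card = ∑ s ∈ Finset.Icc 1 ⌊(B : ℝ) ^ η⌋₊,
      ((Finset.Ioc 0 (0 + B / s)).filter (Rough z)).card := by
    rw [hT, Finset.card_sigma]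
  rw [← hTc]
  have hsub : A ⊆ T.image (fun t => (((t.1 * t.2 : ℕ)) : ℤ)) ∪
      T.image (fun t => -(((t.1 * t.2 : ℕ)) : ℤ)) := by
    intro x hx
    obtain ⟨hxB, s, l, hs, hsB, _, hl, hxs⟩ := hA x hx
    have hpos : 0 < l.prod := by
      refine Nat.pos_of_ne_zero fun h0 => ?_
      rw [List.prod_eq_zero_iff] at h0
      exact (hl 0 h0).1.ne_zero rfl
    have hnat : x.natAbs ≤ B := by
      have := Int.abs_eq_natAbs x
      omega
    have hmem : (⟨s, l.prod⟩ : Σ _ : ℕ, ℕ) ∈ T := by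
      rw [hT, Finset.mem_sigma]
      refine ⟨Finset.mem_Icc.mpr ⟨hs, Nat.le_floor hsB⟩, ?_⟩
      rw [Finset.mem_filter, Finset.mem_Ioc]
      refine ⟨⟨hpos, ?_⟩, ?_⟩
      · rw [Nat.zero_add]
        show l.prod ≤ B / s
        rw [Nat.le_div_iff_mul_le (by omega), Nat.mul_comm]
        omega
      · refine rough_list_prod fun p hp => ⟨(hl p hp).1, ?_⟩
        have := lt_of_le_of_lt hz (hl p hp).2
        exact_mod_cast this
    rw [Finset.mem_union]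
    rcases Int.natAbs_eq x with h | h
    · left
      rw [Finset.mem_image]
      exact ⟨_, hmem, by rw [h, hxs]⟩
    · right
      rw [Finset.mem_image]
      exact ⟨_, hmem, by rw [h, hxs]⟩
  calc A.card ≤ _ := Finset.card_le_card hsub
    _ ≤ _ := Finset.card_union_le _ _
    _ ≤ T.card + T.card := Nat.add_le_add Finset.card_image_le Finset.card_image_le
    _ = 2 * T.card := by ring

/-- the size conditions for `z = ⌊B^(1/5)⌋` -/
theorem dens_size {η : ℝ} (h0 : 0 < η) (h1 : η ≤ 1 / 20) {B : ℕ} (hB : 2 ^ 30 ≤ B) :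
    2 ≤ ⌊(B : ℝ) ^ (1 / 5 : ℝ)⌋₊ ∧
    ((⌊(B : ℝ) ^ (1 / 5 : ℝ)⌋₊ : ℕ) : ℝ) ≤ (B : ℝ) ^ (1 / 4 - η) ∧
    (∀ s ∈ Finset.Icc 1 ⌊(B : ℝ) ^ η⌋₊, ⌊(B : ℝ) ^ (1 / 5 : ℝ)⌋₊ ≤ B / s) ∧
    Real.log B / 6 ≤ Real.log (⌊(B : ℝ) ^ (1 / 5 : ℝ)⌋₊ : ℕ) := by
  have hBr : (2 : ℝ) ^ (30 : ℕ) ≤ B := by exact_mod_cast hB
  have hB1 : (1 : ℝ) ≤ B := le_trans (by norm_num) hBr
  have hB0 : (0 : ℝ) < B := by linarith
  have h64 : (64 : ℝ) ≤ (B : ℝ) ^ (1 / 5 : ℝ) := by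
    have h := Real.rpow_le_rpow (by positivity) hBr (by norm_num : (0 : ℝ) ≤ 1 / 5)
    have e : (((2 : ℝ) ^ (30 : ℕ)) ^ (1 / 5 : ℝ)) = 64 := by
      rw [← Real.rpow_natCast, ← Real.rpow_mul (by norm_num)]
      norm_num
    rwa [e] at h
  have hfl : ((⌊(B : ℝ) ^ (1 / 5 : ℝ)⌋₊ : ℕ) : ℝ) ≤ (B : ℝ) ^ (1 / 5 : ℝ) :=
    Nat.floor_le (by positivity)
  refine ⟨?_, ?_, ?_, ?_⟩
  · exact Nat.le_floor (by push_cast; linarith)
  · exact hfl.trans (Real.rpow_le_rpow_of_exponent_le hB1 (by linarith))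
  · intro s hs
    rw [Finset.mem_Icc] at hs
    rw [Nat.le_div_iff_mul_le (by omega)]
    have hsr : (s : ℝ) ≤ (B : ℝ) ^ η := (Nat.le_floor_iff (by positivity)).mp hs.2
    have h2 : (s : ℝ) ≤ (B : ℝ) ^ (1 / 20 : ℝ) :=
      hsr.trans (Real.rpow_le_rpow_of_exponent_le hB1 h1)
    have h3 : ((⌊(B : ℝ) ^ (1 / 5 : ℝ)⌋₊ : ℕ) : ℝ) * s ≤
        (B : ℝ) ^ (1 / 5 : ℝ) * (B : ℝ) ^ (1 / 20 : ℝ) :=
      mul_le_mul hfl h2 (Nat.cast_nonneg _) (by positivity)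
    rw [← Real.rpow_add hB0] at h3
    have h4 : (B : ℝ) ^ ((1 / 5 : ℝ) + 1 / 20) ≤ (B : ℝ) ^ (1 : ℝ) :=
      Real.rpow_le_rpow_of_exponent_le hB1 (by norm_num)
    rw [Real.rpow_one] at h4
    exact_mod_cast h3.trans h4
  · have hhalf : (B : ℝ) ^ (1 / 5 : ℝ) / 2 ≤ ((⌊(B : ℝ) ^ (1 / 5 : ℝ)⌋₊ : ℕ) : ℝ) := by
      have := Nat.lt_floor_add_one ((B : ℝ) ^ (1 / 5 : ℝ))
      linarith
    have h5 := Real.log_le_log (by positivity) hhalf
    rw [Real.log_div (by positivity) (by norm_num), Real.log_rpow hB0] at h5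
    have h6 : 30 * Real.log 2 ≤ Real.log B := by
      have := Real.log_le_log (by positivity) hBr
      rw [Real.log_pow] at this
      push_cast at this
      exact this
    linarith

theorem dens : ∃ K : ℝ, 0 < K ∧ ∀ η : ℝ, 0 < η → η ≤ 1 / 20 → ∃ B0 : ℕ, ∀ B : ℕ, B0 ≤ B →
    ∀ A : Finset ℤ, (∀ x ∈ A, |x| ≤ B ∧ Shape η B x) → (A.card : ℝ) ≤ K * η * B := by
  obtain ⟨C, hC, hrc⟩ := rough_count
  refine ⟨24 * C, by positivity, fun η h0 h1 => ?_⟩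
  refine ⟨max (2 ^ 30) ⌈Real.exp (1 / η)⌉₊, fun B hB A hA => ?_⟩
  have hB2 : 2 ^ 30 ≤ B := (le_max_left _ _).trans hB
  have hBe : Real.exp (1 / η) ≤ B :=
    (Nat.le_ceil _).trans (by exact_mod_cast (le_max_right _ _).trans hB)
  have hBr : (2 : ℝ) ^ (30 : ℕ) ≤ B := by exact_mod_cast hB2
  have hB1 : (1 : ℝ) ≤ B := le_trans (by norm_num) hBr
  have hB0 : (0 : ℝ) < B := by linarith
  have hlog : 1 / η ≤ Real.log B := (Real.le_log_iff_exp_le hB0).mpr hBe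
  have hlog0 : 0 < Real.log B := lt_of_lt_of_le (by positivity) hlog
  have hlog1 : 1 ≤ η * Real.log B := by
    have := mul_le_mul_of_nonneg_left hlog h0.le
    rwa [mul_one_div_cancel h0.ne'] at this
  obtain ⟨hz2, hzB, hzs, hlz⟩ := dens_size h0 h1 hB2
  set z : ℕ := ⌊(B : ℝ) ^ (1 / 5 : ℝ)⌋₊ with hz
  set S : ℕ := ⌊(B : ℝ) ^ η⌋₊ with hS
  have hlz0 : 0 < Real.log z := lt_of_lt_of_le (by positivity) hlz
  have hcard := card_shape_le hzB A hA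
  rw [← hS] at hcard
  have hcr : (A.card : ℝ) ≤ 2 * ∑ s ∈ Finset.Icc 1 S,
      (((Finset.Ioc 0 (0 + B / s)).filter (Rough z)).card : ℝ) := by
    exact_mod_cast hcard
  have hS1 : 1 ≤ S := Nat.le_floor (by
    rw [Nat.cast_one]
    exact Real.one_le_rpow hB1 h0.le)
  have hSle : (S : ℝ) ≤ (B : ℝ) ^ η := Nat.floor_le (by positivity)
  have hlS : Real.log S ≤ η * Real.log B := by
    rw [← Real.log_rpow hB0]
    exact Real.log_le_log (by exact_mod_cast hS1) hSle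
  have hsum : ∑ s ∈ Finset.Icc 1 S, (((Finset.Ioc 0 (0 + B / s)).filter (Rough z)).card : ℝ) ≤
      ∑ s ∈ Finset.Icc 1 S, (C * B * (6 / Real.log B)) * (s : ℝ)⁻¹ := by
    refine Finset.sum_le_sum fun s hs => ?_
    have hs1 := (Finset.mem_Icc.mp hs).1
    have hs0 : (0 : ℝ) < s := by exact_mod_cast hs1
    have h2 := hrc z hz2 0 (B / s) (hzs s hs)
    have h3 : ((B / s : ℕ) : ℝ) ≤ (B : ℝ) / s := Nat.cast_div_le
    have h4 : 1 / Real.log z ≤ 6 / Real.log B := by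
      rw [div_le_div_iff₀ hlz0 hlog0]
      linarith
    calc _ ≤ _ := h2
      _ = (C * ((B / s : ℕ) : ℝ)) * (1 / Real.log z) := by ring
      _ ≤ (C * ((B : ℝ) / s)) * (6 / Real.log B) := by
        refine mul_le_mul (mul_le_mul_of_nonneg_left h3 hC.le) h4 (by positivity) (by positivity)
      _ = _ := by
        rw [div_eq_mul_inv (B : ℝ) (s : ℝ)]
        ring
  have hharm : ∑ s ∈ Finset.Icc 1 S, ((s : ℝ))⁻¹ ≤ 1 + Real.log S := by
    have h := harmonic_le_one_add_log S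
    rw [harmonic_eq_sum_Icc] at h
    push_cast at h
    exact h
  rw [← Finset.mul_sum] at hsum
  have hCB : 0 ≤ C * B * (6 / Real.log B) := by positivity
  have h7 : ∑ s ∈ Finset.Icc 1 S, ((s : ℝ))⁻¹ ≤ 2 * (η * Real.log B) := by linarith
  have h8 := mul_le_mul_of_nonneg_left h7 hCB
  have h9 : C * B * (6 / Real.log B) * (2 * (η * Real.log B)) = 12 * C * η * B := by
    field_simp
    ring
  rw [h9] at h8
  linarith

end SixCubes
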