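import Pool.Agent.Lib.MP_e471a0_nt.Core

set_option autoImplicit false

/-!
The divisor bound `d(n) ≤ C n^η` (copied from the library file of MP_bc6037_nt) and its form
`DivB (100 B^3) D` with `D ≤ C B^ε`.
-/

open Finset

namespace SixCubes

/-- local factor bound -/
lemma local_factor {η : ℝ} (hη : 0 < η) (a : ℕ) :
    ((a : ℝ) + 1) ≤ max 1 (1 / (η * Real.log 2)) * ((2 : ℝ) ^ η) ^ a := by
  have hlog : 0 < Real.log 2 := Real.log_pos (by norm_num)
  have h1 : 1 + (a : ℝ) * (η * Real.log 2) ≤ ((2 : ℝ) ^ η) ^ a := by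
    have h2 : ((2 : ℝ) ^ η) ^ a = Real.exp ((a : ℝ) * (η * Real.log 2)) := by
      rw [Real.rpow_def_of_pos (by norm_num), ← Real.exp_nat_mul]
      congr 1; ring
    rw [h2]
    have := Real.add_one_le_exp ((a : ℝ) * (η * Real.log 2))
    linarith
  have hM1 : (1 : ℝ) ≤ max 1 (1 / (η * Real.log 2)) := le_max_left _ _
  have hM2 : 1 / (η * Real.log 2) ≤ max 1 (1 / (η * Real.log 2)) := le_max_right _ _
  set M := max 1 (1 / (η * Real.log 2))
  have h3 : 1 ≤ M * (η * Real.log 2) := by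
    rw [div_le_iff₀ (by positivity)] at hM2; exact hM2
  have ha : (0 : ℝ) ≤ a := Nat.cast_nonneg a
  calc (a : ℝ) + 1 ≤ M * (1 + (a : ℝ) * (η * Real.log 2)) := by
        nlinarith
    _ ≤ _ := by gcongr

theorem card_divisors_le_rpow {η : ℝ} (hη : 0 < η) :
    ∃ C : ℝ, 1 ≤ C ∧ ∀ n : ℕ, n ≠ 0 → (n.divisors.card : ℝ) ≤ C * (n : ℝ) ^ η := by
  set M := max 1 (1 / (η * Real.log 2)) with hM
  have hM1 : (1 : ℝ) ≤ M := le_max_left _ _
  set P0 : ℕ := ⌈(2 : ℝ) ^ (1 / η)⌉₊ with hP0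
  refine ⟨M ^ (P0 + 1), one_le_pow₀ hM1, fun n hn => ?_⟩
  have e1 : (n : ℝ) ^ η = ∏ p ∈ n.primeFactors, ((p : ℝ) ^ η) ^ (n.factorization p) := by
    have h1 : (n : ℝ) = ∏ p ∈ n.primeFactors, (p : ℝ) ^ (n.factorization p) := by
      have := Nat.prod_factorization_pow_eq_self hn
      conv_lhs => rw [← this]
      rw [Finsupp.prod, Nat.support_factorization]
      push_cast; rfl
    conv_lhs => rw [h1]
    rw [← Real.finsetProd_rpow _ _ (fun p _ => by positivity)]
    refine Finset.prod_congr rfl fun p _ => ?_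
    rw [← Real.rpow_natCast, ← Real.rpow_natCast, ← Real.rpow_mul (by positivity),
      ← Real.rpow_mul (by positivity), mul_comm]
  have e2 : (n.divisors.card : ℝ) = ∏ p ∈ n.primeFactors, ((n.factorization p : ℝ) + 1) := by
    rw [Nat.card_divisors hn]; push_cast; rfl
  have hle : ∀ p ∈ n.primeFactors, ((n.factorization p : ℝ) + 1) ≤
      (if p ∈ Finset.range (P0 + 1) then M else 1) * ((p : ℝ) ^ η) ^ (n.factorization p) := by
    intro p hp
    have hpp := Nat.prime_of_mem_primeFactors hp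
    have hp2 : (2 : ℝ) ≤ p := by exact_mod_cast hpp.two_le
    by_cases hpr : p ∈ Finset.range (P0 + 1)
    · rw [if_pos hpr]
      refine (local_factor hη _).trans ?_
      gcongr
    · rw [if_neg hpr, one_mul]
      have hpP : (2 : ℝ) ^ (1 / η) ≤ p := by
        have h1 : P0 + 1 ≤ p := by
          by_contra h; exact hpr (Finset.mem_range.2 (by omega))
        calc (2 : ℝ) ^ (1 / η) ≤ P0 := Nat.le_ceil _
          _ ≤ p := by exact_mod_cast (by omega : P0 ≤ p)
      have h2 : (2 : ℝ) ≤ (p : ℝ) ^ η := by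
        calc (2 : ℝ) = ((2 : ℝ) ^ (1 / η)) ^ η := by
              rw [← Real.rpow_mul (by norm_num), one_div_mul_cancel hη.ne', Real.rpow_one]
          _ ≤ _ := by gcongr
      calc ((n.factorization p : ℝ) + 1) ≤ (2 : ℝ) ^ (n.factorization p) := by
            have : n.factorization p + 1 ≤ 2 ^ (n.factorization p) := Nat.lt_two_pow_self
            exact_mod_cast this
        _ ≤ _ := by gcongr
  rw [e1, e2]
  refine (Finset.prod_le_prod (fun p _ => by positivity) hle).trans ?_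
  rw [Finset.prod_mul_distrib]
  refine mul_le_mul_of_nonneg_right ?_ (Finset.prod_nonneg fun p _ => by positivity)
  rw [Finset.prod_ite, Finset.prod_const, Finset.prod_const_one, mul_one]
  refine pow_le_pow_right₀ hM1 ?_
  calc #{x ∈ n.primeFactors | x ∈ Finset.range (P0 + 1)} ≤ #(Finset.range (P0 + 1)) :=
        Finset.card_le_card fun x hx => (Finset.mem_filter.1 hx).2
    _ = P0 + 1 := Finset.card_range _

theorem exists_DivB {ε : ℝ} (hε : 0 < ε) :
    ∃ C : ℝ, 1 ≤ C ∧ ∀ B : ℕ, 1 ≤ B → ∃ D : ℕ, DivB (100 * B ^ 3) D ∧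
      (D : ℝ) ≤ C * (B : ℝ) ^ ε := by
  obtain ⟨C, hC, h⟩ := card_divisors_le_rpow (η := ε / 3) (by positivity)
  have h100 : (1 : ℝ) ≤ (100 : ℝ) ^ (ε / 3) := Real.one_le_rpow (by norm_num) (by positivity)
  refine ⟨C * (100 : ℝ) ^ (ε / 3), by nlinarith, fun B hB => ?_⟩
  refine ⟨⌊C * ((100 * B ^ 3 : ℕ) : ℝ) ^ (ε / 3)⌋₊, ?_, ?_⟩
  · intro t ht htT
    apply Nat.le_floor
    refine (h t ht).trans ?_
    have h1 : (t : ℝ) ≤ ((100 * B ^ 3 : ℕ) : ℝ) := by exact_mod_cast htT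
    have h2 : (t : ℝ) ^ (ε / 3) ≤ ((100 * B ^ 3 : ℕ) : ℝ) ^ (ε / 3) :=
      Real.rpow_le_rpow (Nat.cast_nonneg _) h1 (by positivity)
    exact mul_le_mul_of_nonneg_left h2 (by linarith)
  · refine (Nat.floor_le (by positivity)).trans (le_of_eq ?_)
    have hB0 : (0 : ℝ) ≤ B := Nat.cast_nonneg _
    push_cast
    rw [Real.mul_rpow (by norm_num) (by positivity), ← Real.rpow_natCast (B : ℝ) 3,
      ← Real.rpow_mul hB0]
    have : ((3 : ℕ) : ℝ) * (ε / 3) = ε := by push_cast; ring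
    rw [this]
    ring

end SixCubes
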