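import Pool.Agent.Lib.MP_e471a0_nt.Core

set_option autoImplicit false

/-!
STEP 3 of CUB.md. Units mod `m^3` with a given cube: at most 3 residues mod each prime `p ∣ m`, and these
residues determine the class mod `m^3` (`a^2+ab+b^2 ≡ 3a^2 ≠ 0 mod p` if `a ≡ b mod p`, `p ≠ 3`), so
`a^2+ab+b^2` is coprime to `m^3` and `m^3 ∣ (a-b)(a^2+ab+b^2)` gives `m^3 ∣ a-b`.
-/

open Finset

namespace SixCubes

/-- the residues mod `p` whose cube is `c` mod `p` -/
noncomputable def cubeRes (c : ℤ) (p : ℕ) : Finset ℤ :=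
  (Finset.Ico (0 : ℤ) p).filter (fun r => (p : ℤ) ∣ r ^ 3 - c)

lemma card_cubeRes (c : ℤ) {p : ℕ} (hp : p.Prime) : (cubeRes c p).card ≤ 3 := by
  have := Fact.mk hp
  calc (cubeRes c p).card
      ≤ (Polynomial.nthRoots 3 (c : ZMod p)).toFinset.card := by
        apply Finset.card_le_card_of_injOn (fun r : ℤ => (r : ZMod p))
        · intro r hr
          have hr' : r ∈ cubeRes c p := hr
          rw [cubeRes, Finset.mem_filter] at hr'
          have h1 : ((c : ℤ) : ZMod p) = ((r ^ 3 : ℤ) : ZMod p) :=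
            (ZMod.intCast_eq_intCast_iff_dvd_sub _ _ _).mpr hr'.2
          simp only [Finset.mem_coe, Multiset.mem_toFinset]
          rw [Polynomial.mem_nthRoots (by norm_num)]
          push_cast at h1
          exact h1.symm
        · intro r hr r' hr' h
          have h1 : r ∈ cubeRes c p := hr
          have h2 : r' ∈ cubeRes c p := hr'
          rw [cubeRes, Finset.mem_filter, Finset.mem_Ico] at h1 h2
          have h3 := (ZMod.intCast_eq_intCast_iff' _ _ _).mp h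
          rwa [Int.emod_eq_of_lt h1.1.1 h1.1.2, Int.emod_eq_of_lt h2.1.1 h2.1.2] at h3
    _ ≤ Multiset.card (Polynomial.nthRoots 3 (c : ZMod p)) := Multiset.toFinset_card_le _
    _ ≤ 3 := Polynomial.card_nthRoots 3 _

lemma coprime_quad {m : ℕ} (hm : 1 ≤ m) (h3 : ¬ 3 ∣ m) {x y : ℤ} (hx : IsCoprime x (m : ℤ))
    (h : ∀ p ∈ m.primeFactors, (p : ℤ) ∣ x - y) :
    IsCoprime (x ^ 2 + x * y + y ^ 2) ((m : ℤ) ^ 3) := by
  apply IsCoprime.pow_right
  rw [Int.isCoprime_iff_gcd_eq_one]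
  by_contra hne
  obtain ⟨p, hp, hpd⟩ := Nat.exists_prime_and_dvd hne
  have h1 : (p : ℤ) ∣ x ^ 2 + x * y + y ^ 2 :=
    (Int.natCast_dvd_natCast.mpr hpd).trans (Int.gcd_dvd_left _ _)
  have h2 : (p : ℤ) ∣ (m : ℤ) := (Int.natCast_dvd_natCast.mpr hpd).trans (Int.gcd_dvd_right _ _)
  have h2' : p ∣ m := Int.natCast_dvd_natCast.mp h2
  have hpm : p ∈ m.primeFactors := Nat.mem_primeFactors.mpr ⟨hp, h2', by omega⟩
  have h4 := h p hpm
  have h5 : (p : ℤ) ∣ 3 * x ^ 2 := by
    have e : 3 * x ^ 2 = (x ^ 2 + x * y + y ^ 2) + (x - y) * (2 * x + y) := by ring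
    rw [e]
    exact dvd_add h1 (h4.mul_right _)
  have hpp : Prime (p : ℤ) := Nat.prime_iff_prime_int.mp hp
  rcases hpp.dvd_or_dvd h5 with h6 | h6
  · have h7 : p ∣ 3 := by exact_mod_cast h6
    have h8 : p = 3 := (Nat.prime_dvd_prime_iff_eq hp Nat.prime_three).mp h7
    exact h3 (h8 ▸ h2')
  · have h7 : (p : ℤ) ∣ x := hpp.dvd_of_dvd_pow h6
    exact hpp.not_isUnit (hx.isUnit_of_dvd' h7 h2)

theorem roots_card (m : ℕ) (hm : 1 ≤ m) (h3 : ¬ 3 ∣ m) (c : ℤ) (s : Finset ℤ)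
    (hs : ∀ x ∈ s, IsCoprime x (m : ℤ) ∧ (m : ℤ) ^ 3 ∣ x ^ 3 - c) :
    (s.image (fun x => x % (m : ℤ) ^ 3)).card ≤ 3 ^ m.primeFactors.card := by
  have hm0 : (0 : ℤ) < (m : ℤ) ^ 3 := by positivity
  have hpd : ∀ p ∈ m.primeFactors, (p : ℤ) ∣ (m : ℤ) ^ 3 := fun p hp =>
    dvd_pow (Int.natCast_dvd_natCast.mpr (Nat.dvd_of_mem_primeFactors hp)) (by norm_num)
  calc (s.image (fun x => x % (m : ℤ) ^ 3)).card
      ≤ (m.primeFactors.pi (fun p => cubeRes c p)).card := by
        apply Finset.card_le_card_of_injOn (fun (y : ℤ) (p : ℕ) (_ : p ∈ m.primeFactors) => y % (p : ℤ))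
        · intro y hy
          obtain ⟨x, hx, rfl⟩ := Finset.mem_image.mp (Finset.mem_coe.mp hy)
          rw [Finset.mem_coe, Finset.mem_pi]
          intro p hp
          have hp0 : (0 : ℤ) < p := by exact_mod_cast (Nat.prime_of_mem_primeFactors hp).pos
          have e : x % (m : ℤ) ^ 3 % (p : ℤ) = x % (p : ℤ) :=
            Int.emod_emod_of_dvd _ (hpd p hp)
          simp only [e]
          rw [cubeRes, Finset.mem_filter, Finset.mem_Ico]
          refine ⟨⟨Int.emod_nonneg _ hp0.ne', Int.emod_lt_of_pos _ hp0⟩, ?_⟩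
          have h1 : (p : ℤ) ∣ x ^ 3 - c := (hpd p hp).trans (hs x hx).2
          have h2 : (x % (p : ℤ)) ^ 3 ≡ x ^ 3 [ZMOD p] := (Int.mod_modEq x p).pow 3
          have h3 : (p : ℤ) ∣ x ^ 3 - (x % (p : ℤ)) ^ 3 := h2.dvd
          have h4 := dvd_sub h1 h3
          have e2 : x ^ 3 - c - (x ^ 3 - (x % (p : ℤ)) ^ 3) = (x % (p : ℤ)) ^ 3 - c := by ring
          rwa [e2] at h4
        · intro y hy y' hy' h
          obtain ⟨x, hx, rfl⟩ := Finset.mem_image.mp (Finset.mem_coe.mp hy)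
          obtain ⟨x', hx', rfl⟩ := Finset.mem_image.mp (Finset.mem_coe.mp hy')
          have hdv : ∀ p ∈ m.primeFactors, (p : ℤ) ∣ x - x' := by
            intro p hp
            have h1 := congrFun (congrFun h p) hp
            simp only [Int.emod_emod_of_dvd _ (hpd p hp)] at h1
            exact Int.ModEq.dvd (show x' ≡ x [ZMOD p] from h1.symm)
          have hq := coprime_quad hm h3 (hs x hx).1 hdv
          have h2 : (m : ℤ) ^ 3 ∣ (x - x') * (x ^ 2 + x * x' + x' ^ 2) := by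
            have e : (x - x') * (x ^ 2 + x * x' + x' ^ 2) = (x ^ 3 - c) - (x' ^ 3 - c) := by ring
            rw [e]
            exact dvd_sub (hs x hx).2 (hs x' hx').2
          have h4 : (m : ℤ) ^ 3 ∣ x - x' := hq.symm.dvd_of_dvd_mul_right h2
          exact (Int.modEq_iff_dvd.mpr h4 : x' ≡ x [ZMOD (m : ℤ) ^ 3]).symm
    _ = ∏ p ∈ m.primeFactors, (cubeRes c p).card := Finset.card_pi _ _
    _ ≤ ∏ _p ∈ m.primeFactors, 3 :=
        Finset.prod_le_prod' (fun p hp => card_cubeRes c (Nat.prime_of_mem_primeFactors hp))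
    _ = 3 ^ m.primeFactors.card := by rw [Finset.prod_const]

theorem three_pow_omega_le {T D m : ℕ} (hD : DivB T D) (hm : m ≠ 0) (hT : m ≤ T) :
    3 ^ m.primeFactors.card ≤ D ^ 2 := by
  have h1 : 2 ^ m.primeFactors.card ≤ m.divisors.card := by
    rw [Nat.card_divisors hm, ← Finset.prod_const]
    apply Finset.prod_le_prod'
    intro p hp
    have : 1 ≤ m.factorization p :=
      (Nat.prime_of_mem_primeFactors hp).factorization_pos_of_dvd hm
        (Nat.dvd_of_mem_primeFactors hp)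
    omega
  calc 3 ^ m.primeFactors.card ≤ 4 ^ m.primeFactors.card := Nat.pow_le_pow_left (by norm_num) _
    _ = (2 ^ m.primeFactors.card) ^ 2 := by
        rw [← pow_mul, mul_comm, pow_mul]; norm_num
    _ ≤ D ^ 2 := Nat.pow_le_pow_left (h1.trans (hD m hm hT)) 2

end SixCubes
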