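import Pool.Agent.Lib.MP_e471a0_nt.Sym
import Pool.Agent.Lib.MP_e471a0_nt.Roots

set_option autoImplicit false

/-!
STEP 3 and the scaling of STEP 4: `N6 (M^4 A'^2) ≤ 3^omega N1`, `J = N1 (1)`,
`N6 (M_k^6) ≤ J (B/k)`.
-/

open Finset

namespace SixCubes

/-- the multiples of `m` of absolute value at most `B` -/
noncomputable def Mk (m B : ℕ) : Finset ℤ := (S B).filter (fun x => (m : ℤ) ∣ x)

/-- the integers coprime to `m` of absolute value at most `B` -/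
noncomputable def Ak (m B : ℕ) : Finset ℤ := (S B).filter (fun x => IsCoprime x (m : ℤ))

/-- all solutions up to `B` -/
noncomputable def J (B : ℕ) : ℕ := N6 ![S B, S B, S B, S B, S B, S B]

lemma symSet_S (B : ℕ) : SymSet (S B) := fun _ hx => neg_mem_S.mpr hx

lemma mem_Mk {m B : ℕ} {x : ℤ} : x ∈ Mk m B ↔ x ∈ S B ∧ (m : ℤ) ∣ x := by
  rw [Mk, mem_filter]

lemma mem_Ak {m B : ℕ} {x : ℤ} : x ∈ Ak m B ↔ x ∈ S B ∧ IsCoprime x (m : ℤ) := by
  rw [Ak, mem_filter]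

lemma symSet_Mk (m B : ℕ) : SymSet (Mk m B) := fun x hx => by
  rw [mem_Mk] at hx ⊢
  exact ⟨neg_mem_S.mpr hx.1, (dvd_neg).mpr hx.2⟩

lemma symSet_Ak (m B : ℕ) : SymSet (Ak m B) := fun x hx => by
  rw [mem_Ak] at hx ⊢
  exact ⟨neg_mem_S.mpr hx.1, (IsCoprime.neg_left_iff x (m : ℤ)).mpr hx.2⟩

lemma Mk_sub (m B : ℕ) : Mk m B ⊆ S B := filter_subset _ _

lemma Ak_sub (m B : ℕ) : Ak m B ⊆ S B := filter_subset _ _

lemma div_mem_S {m B : ℕ} (hm : 1 ≤ m) {x : ℤ} (hx : x ∈ Mk m B) :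
    x / (m : ℤ) ∈ S (B / m) := by
  rw [mem_Mk, mem_S] at hx
  obtain ⟨h1, ⟨n, hn⟩⟩ := hx
  have hm' : (0 : ℤ) < m := by exact_mod_cast hm
  rw [mem_S, hn, Int.mul_ediv_cancel_left _ hm'.ne']
  push_cast
  rw [Int.le_ediv_iff_mul_le hm']
  have : |x| = m * |n| := by rw [hn, abs_mul, abs_of_pos hm']
  rw [← this.trans (mul_comm _ _)]
  exact h1

lemma mul_div_Mk {m B : ℕ} {x : ℤ} (hx : x ∈ Mk m B) : (m : ℤ) * (x / (m : ℤ)) = x :=
  Int.mul_ediv_cancel' (mem_Mk.mp hx).2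

/-- `Z(M^4 A'^2) ≤ 3^omega(m) N_1(m)` -/
theorem link_N1 {m B : ℕ} (hm : 1 ≤ m) (h3 : ¬ 3 ∣ m) :
    N6 ![Ak m B, Mk m B, Mk m B, Ak m B, Mk m B, Mk m B] ≤
      3 ^ m.primeFactors.card * (N1set m B (B / m)).card := by
  rw [N6_eq _ _ _ _ _ _ (symSet_Ak m B) (symSet_Mk m B) (symSet_Mk m B)]
  set U' : Finset (ℤ × (ℤ × ℤ)) := Ak m B ×ˢ (S (B / m) ×ˢ S (B / m)) with hU'
  have hm' : (0 : ℤ) < m := by exact_mod_cast hm
  have h1 : (eqPairs (Ak m B ×ˢ (Mk m B ×ˢ Mk m B)) (Ak m B ×ˢ (Mk m B ×ˢ Mk m B)) c3 c3).card ≤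
      (eqPairs U' U' (phi m) (phi m)).card := by
    refine Finset.card_le_card_of_injOn (fun p =>
      ((p.1.1, (p.1.2.1 / (m : ℤ), p.1.2.2 / (m : ℤ))),
        (p.2.1, (p.2.2.1 / (m : ℤ), p.2.2.2 / (m : ℤ))))) ?_ ?_
    · intro p hp
      have hp' := Finset.mem_coe.mp hp
      rw [mem_eqPairs] at hp'
      simp only [mem_product, c3] at hp'
      obtain ⟨⟨⟨e0, e1, e2⟩, e3, e4, e5⟩, h⟩ := hp'
      refine Finset.mem_coe.mpr ?_
      rw [mem_eqPairs]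
      simp only [hU', mem_product, phi, c2]
      refine ⟨⟨⟨e0, div_mem_S hm e1, div_mem_S hm e2⟩, e3, div_mem_S hm e4, div_mem_S hm e5⟩, ?_⟩
      have f1 := mul_div_Mk e1
      have f2 := mul_div_Mk e2
      have f4 := mul_div_Mk e4
      have f5 := mul_div_Mk e5
      have g : ∀ x n k : ℤ, x ^ 3 + (m : ℤ) ^ 3 * (n ^ 3 + k ^ 3) =
          x ^ 3 + ((m : ℤ) * n) ^ 3 + ((m : ℤ) * k) ^ 3 := fun x n k => by ring
      rw [g, g, f1, f2, f4, f5]
      exact h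
    · intro p hp q hq h
      have hp' := Finset.mem_coe.mp hp
      have hq' := Finset.mem_coe.mp hq
      rw [mem_eqPairs] at hp' hq'
      simp only [mem_product] at hp' hq'
      obtain ⟨⟨⟨e0, e1, e2⟩, e3, e4, e5⟩, -⟩ := hp'
      obtain ⟨⟨⟨k0, k1, k2⟩, k3, k4, k5⟩, -⟩ := hq'
      simp only [Prod.mk.injEq] at h
      obtain ⟨⟨g0, g1, g2⟩, g3, g4, g5⟩ := h
      have r1 : p.1.2.1 = q.1.2.1 := by rw [← mul_div_Mk e1, ← mul_div_Mk k1, g1]
      have r2 : p.1.2.2 = q.1.2.2 := by rw [← mul_div_Mk e2, ← mul_div_Mk k2, g2]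
      have r4 : p.2.2.1 = q.2.2.1 := by rw [← mul_div_Mk e4, ← mul_div_Mk k4, g4]
      have r5 : p.2.2.2 = q.2.2.2 := by rw [← mul_div_Mk e5, ← mul_div_Mk k5, g5]
      exact Prod.ext (Prod.ext g0 (Prod.ext r1 r2)) (Prod.ext g3 (Prod.ext r4 r5))
  refine h1.trans ((card_eqPairs_le_classes U' (phi m) (fun X => X.1 % (m : ℤ) ^ 3)
    (3 ^ m.primeFactors.card) ?_).trans ?_)
  · intro c
    have e : ((U'.filter (fun X => phi m X = c)).image (fun X => X.1 % (m : ℤ) ^ 3)) =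
        (((U'.filter (fun X => phi m X = c)).image (fun X => X.1)).image
          (fun x => x % (m : ℤ) ^ 3)) := by
      rw [Finset.image_image]
      rfl
    rw [e]
    refine roots_card m hm h3 c _ ?_
    intro x hx
    rw [mem_image] at hx
    obtain ⟨X, hX, rfl⟩ := hx
    rw [mem_filter, hU', mem_product, mem_Ak] at hX
    refine ⟨hX.1.1.2, ⟨-c2 X.2, ?_⟩⟩
    have := hX.2
    simp only [phi] at this
    linear_combination this
  · refine Nat.mul_le_mul_left _ (Finset.card_le_card ?_)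
    intro p hp
    rw [mem_eqPairs] at hp
    obtain ⟨⟨p1, p2⟩, h⟩ := hp
    rw [hU', mem_product] at p1 p2
    simp only [Prod.mk.injEq] at h
    rw [mem_N1set]
    exact ⟨⟨Ak_sub m B p1.1, p1.2⟩, ⟨Ak_sub m B p2.1, p2.2⟩, h.1,
      Int.ModEq.dvd (Int.ModEq.symm (h.2 : p.1.1 ≡ p.2.1 [ZMOD (m : ℤ) ^ 3]))⟩

theorem link_J (B : ℕ) : J B ≤ (N1set 1 B B).card := by
  rw [J, N6_eq _ _ _ _ _ _ (symSet_S B) (symSet_S B) (symSet_S B)]
  refine Finset.card_le_card ?_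
  intro p hp
  rw [mem_eqPairs] at hp
  obtain ⟨⟨p1, p2⟩, h⟩ := hp
  rw [mem_product] at p1 p2
  rw [mem_N1set]
  refine ⟨p1, p2, ?_, by simp⟩
  simp only [c3] at h
  simp only [phi, c2]
  push_cast
  linear_combination h

theorem link_scale {k B : ℕ} (hk : 1 ≤ k) :
    N6 ![Mk k B, Mk k B, Mk k B, Mk k B, Mk k B, Mk k B] ≤ J (B / k) := by
  have hk' : (0 : ℤ) < k := by exact_mod_cast hk
  have e1 : (![Mk k B, Mk k B, Mk k B, Mk k B, Mk k B, Mk k B] : Fin 6 → Finset ℤ) =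
      fun _ => Mk k B := by
    funext i
    fin_cases i <;> rfl
  have e2 : (![S (B / k), S (B / k), S (B / k), S (B / k), S (B / k), S (B / k)] :
      Fin 6 → Finset ℤ) = fun _ => S (B / k) := by
    funext i
    fin_cases i <;> rfl
  rw [J, e1, e2]
  refine Finset.card_le_card_of_injOn (fun x i => x i / (k : ℤ)) ?_ ?_
  · intro x hx
    have hx' := mem_N6set.mp (Finset.mem_coe.mp hx)
    refine Finset.mem_coe.mpr (mem_N6set.mpr ⟨fun i => div_mem_S hk (hx'.1 i), ?_⟩)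
    have h1 : (k : ℤ) ^ 3 * ∑ i, (x i / (k : ℤ)) ^ 3 = 0 := by
      rw [Finset.mul_sum, ← hx'.2]
      refine Finset.sum_congr rfl fun i _ => ?_
      rw [← mul_pow, mul_div_Mk (hx'.1 i)]
    rcases mul_eq_zero.mp h1 with h | h
    · exact absurd h (by positivity)
    · exact h
  · intro x hx y hy h
    have hx' := mem_N6set.mp (Finset.mem_coe.mp hx)
    have hy' := mem_N6set.mp (Finset.mem_coe.mp hy)
    funext i
    have h1 : x i / (k : ℤ) = y i / (k : ℤ) := congrFun h i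
    rw [← mul_div_Mk (hx'.1 i), ← mul_div_Mk (hy'.1 i), h1]

end SixCubes
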