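import Pool.Agent.Lib.MP_e471a0_nt.Defs

set_option autoImplicit false

/-!
STEP 6 of CUB.md. `n = |x| ≤ B`, `n ≠ 0`, without divisors in `(B^η, B^(1/4-η)]`. `s` = product (with
multiplicity) of the prime factors `≤ B^(1/4-η)` of `n`; these primes are `≤ B^η`. The other primes are
`> B^(1/4-η)`, at most four, since `5 (1/4-η) ≥ 1`.
-/

namespace SixCubes

private theorem prod_small {u v : ℝ} {n : ℕ} (hu : 1 ≤ u) (huv : u * u ≤ v)
    (h : ∀ m : ℕ, m ∣ n → u < m → v < m) :
    ∀ A : List ℕ, (∀ p ∈ A, (p : ℝ) ≤ u) → A.prod ∣ n → ((A.prod : ℕ) : ℝ) ≤ u := by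
  intro A
  induction A with
  | nil => intro _ _; simpa using hu
  | cons p A ih =>
    intro hp hd
    have hd' : A.prod ∣ n := by
      rw [List.prod_cons] at hd
      exact (Dvd.intro_left p rfl).trans hd
    have h1 : ((A.prod : ℕ) : ℝ) ≤ u := ih (fun q hq => hp q (List.mem_cons_of_mem p hq)) hd'
    have h2 : (p : ℝ) ≤ u := hp p List.mem_cons_self
    by_contra hc
    push Not at hc
    have h3 := h _ hd hc
    rw [List.prod_cons, Nat.cast_mul] at h3
    have h4 : (p : ℝ) * ((A.prod : ℕ) : ℝ) ≤ u * u :=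
      mul_le_mul h2 h1 (Nat.cast_nonneg _) (by linarith)
    linarith

private theorem pow_length_lt {t : ℝ} (ht : 1 ≤ t) :
    ∀ A : List ℕ, (∀ p ∈ A, t < (p : ℝ)) → A ≠ [] → t ^ A.length < ((A.prod : ℕ) : ℝ) := by
  intro A
  induction A with
  | nil => intro _ h; exact absurd rfl h
  | cons p A ih =>
    intro hp _
    have h2 : t < (p : ℝ) := hp p List.mem_cons_self
    rw [List.prod_cons, Nat.cast_mul, List.length_cons, pow_succ, mul_comm (t ^ A.length)]
    have hle : t ^ A.length ≤ ((A.prod : ℕ) : ℝ) := by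
      by_cases hA : A = []
      · subst hA; simp
      · exact (ih (fun q hq => hp q (List.mem_cons_of_mem p hq)) hA).le
    have hpos : 0 < t ^ A.length := pow_pos (by linarith) _
    calc t * t ^ A.length < (p : ℝ) * t ^ A.length := mul_lt_mul_of_pos_right h2 hpos
      _ ≤ (p : ℝ) * ((A.prod : ℕ) : ℝ) := mul_le_mul_of_nonneg_left hle (by linarith)

theorem shape_of_no_div {η : ℝ} (h0 : 0 < η) (h1 : η ≤ 1 / 20) {B : ℕ} (hB : 1 ≤ B) {x : ℤ}
    (hx : x ≠ 0) (hxB : x.natAbs ≤ B)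
    (h : ∀ m : ℕ, m ∣ x.natAbs → (B : ℝ) ^ η < m → (B : ℝ) ^ (1 / 4 - η) < m) :
    Shape η B x := by
  classical
  set n := x.natAbs with hn
  have hn0 : n ≠ 0 := by rw [hn]; exact Int.natAbs_ne_zero.mpr hx
  have hB1 : (1 : ℝ) ≤ (B : ℝ) := by exact_mod_cast hB
  set u : ℝ := (B : ℝ) ^ η with hu
  set v : ℝ := (B : ℝ) ^ (1 / 4 - η) with hv
  have hu1 : 1 ≤ u := Real.one_le_rpow hB1 h0.le
  have hv1 : 1 ≤ v := Real.one_le_rpow hB1 (by linarith)
  have huv : u * u ≤ v := by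
    rw [hu, hv, ← Real.rpow_add (by linarith)]
    exact Real.rpow_le_rpow_of_exponent_le hB1 (by linarith)
  have hBv : (B : ℝ) ≤ v ^ 5 := by
    have : v ^ 5 = (B : ℝ) ^ ((1 / 4 - η) * 5) := by
      rw [hv, Real.rpow_mul (by linarith), ← Real.rpow_natCast]
      norm_num
    rw [this]
    calc (B : ℝ) = (B : ℝ) ^ (1 : ℝ) := (Real.rpow_one _).symm
      _ ≤ (B : ℝ) ^ ((1 / 4 - η) * 5) :=
        Real.rpow_le_rpow_of_exponent_le hB1 (by linarith)
  set L := n.primeFactorsList with hL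
  have hLprod : L.prod = n := Nat.prod_primeFactorsList hn0
  set A := L.filter (fun p : ℕ => decide ((p : ℝ) ≤ v)) with hA
  set C := L.filter (fun p : ℕ => !decide ((p : ℝ) ≤ v)) with hC
  have hAC : A.prod * C.prod = n := by
    rw [← hLprod, ← List.prod_append]
    exact (List.filter_append_perm (fun p : ℕ => decide ((p : ℝ) ≤ v)) L).prod_eq
  have hAd : A.prod ∣ n := ⟨C.prod, hAC.symm⟩
  have hCd : C.prod ∣ n := ⟨A.prod, by rw [mul_comm]; exact hAC.symm⟩
  have hAu : ∀ p ∈ A, (p : ℝ) ≤ u := by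
    intro p hp
    rw [hA, List.mem_filter] at hp
    have hpn : p ∣ n := Nat.dvd_of_mem_primeFactorsList hp.1
    have hpv : (p : ℝ) ≤ v := by simpa using hp.2
    by_contra hc
    push Not at hc
    have := h p hpn hc
    linarith
  have hCv : ∀ p ∈ C, p.Prime ∧ v < (p : ℝ) := by
    intro p hp
    rw [hC, List.mem_filter] at hp
    refine ⟨Nat.prime_of_mem_primeFactorsList hp.1, ?_⟩
    simpa using hp.2
  have hlen : C.length ≤ 4 := by
    by_contra hc
    push Not at hc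
    have hne : C ≠ [] := by
      intro he; rw [he] at hc; simp at hc
    have h5 := pow_length_lt hv1 C (fun p hp => (hCv p hp).2) hne
    have h6 : v ^ 5 ≤ v ^ C.length := pow_le_pow_right₀ hv1 hc
    have h7 : ((C.prod : ℕ) : ℝ) ≤ (B : ℝ) := by
      exact_mod_cast (Nat.le_of_dvd (Nat.pos_of_ne_zero hn0) hCd).trans hxB
    linarith
  refine ⟨A.prod, C, ?_, prod_small hu1 huv h A hAu hAd, hlen, hCv, hAC.symm⟩
  exact Nat.pos_of_dvd_of_pos hAd (Nat.pos_of_ne_zero hn0)

end SixCubes
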