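import Pool.Agent.Lib.MP_e471a0_nt.Sums
import Pool.Agent.Lib.MP_e471a0_nt.Struct
import Pool.Agent.Lib.MP_e471a0_nt.Dens

set_option autoImplicit false

/-!
The final assembly: the statements for the equation `x_0^3+x_1^3+x_2^3=x_3^3+x_4^3+x_5^3`.
-/

open Finset

namespace SixCubes

/-- the change of the signs of the last three coordinates -/
def flip (x : Fin 6 → ℤ) : Fin 6 → ℤ := fun i => if i.val < 3 then x i else - x i

lemma flip_flip (x : Fin 6 → ℤ) : flip (flip x) = x := by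
  funext i
  simp only [flip]
  split_ifs
  · rfl
  · ring

lemma flip_iff {P : ℤ → Prop} (hP : ∀ x, P (-x) ↔ P x) (x : Fin 6 → ℤ) (i : Fin 6) :
    P (flip x i) ↔ P (x i) := by
  simp only [flip]
  split_ifs
  · rfl
  · exact hP _

lemma transfer {P : (Fin 6 → ℤ) → Prop} (hP : ∀ x, P x → P (flip x)) {B : ℕ}
    {s t : Finset (Fin 6 → ℤ)} (hs : ∀ x ∈ s, x ∈ Sol B ∧ P x)
    (ht : ∀ x, x ∈ N6set (fun _ => S B) → P x → x ∈ t) : s.card ≤ t.card := by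
  refine Finset.card_le_card_of_injOn flip ?_ ?_
  · intro x hx
    have hx' := hs x (Finset.mem_coe.mp hx)
    rw [Sol, mem_filter, Fintype.mem_piFinset] at hx'
    obtain ⟨⟨h1, h2⟩, h3⟩ := hx'
    refine Finset.mem_coe.mpr (ht _ (mem_N6set.mpr ⟨fun l => ?_, ?_⟩) (hP x h3))
    · exact (flip_iff (P := fun y => y ∈ S B) (fun y => neg_mem_S) x l).mpr (h1 l)
    · simp [Fin.sum_univ_six, flip]
      linear_combination h2
  · intro x _ y _ h
    rw [← flip_flip x, ← flip_flip y, h]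

lemma card_N6_triv (B : ℕ) : (N6set (fun _ => S B)).card ≤ (2 * B + 1) ^ 6 := by
  refine (card_filter_le _ _).trans (le_of_eq ?_)
  rw [Fintype.card_piFinset]
  simp only [card_S, Finset.prod_const, Finset.card_univ, Fintype.card_fin]

lemma all_of_large {f : ℕ → ℕ} {a C : ℝ} (ha : 0 ≤ a) (B1 : ℕ)
    (hM : ∀ B, B ≤ B1 → f B ≤ (2 * B + 1) ^ 6)
    (hC : ∀ B, B1 ≤ B → 1 ≤ B → (f B : ℝ) ≤ C * (B : ℝ) ^ a) :
    ∃ C' : ℝ, ∀ B : ℕ, 1 ≤ B → (f B : ℝ) ≤ C' * (B : ℝ) ^ a := by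
  obtain ⟨M, hMM⟩ : ∃ M : ℕ, M = (2 * B1 + 1) ^ 6 := ⟨_, rfl⟩
  refine ⟨max C M, fun B hB => ?_⟩
  have hB' : (1 : ℝ) ≤ B := by exact_mod_cast hB
  have h1 : (1 : ℝ) ≤ (B : ℝ) ^ a := Real.one_le_rpow hB' ha
  have hM0 : (0 : ℝ) ≤ M := Nat.cast_nonneg M
  rcases le_total B B1 with h | h
  · have h2 : f B ≤ M := by
      rw [hMM]
      exact (hM B h).trans (Nat.pow_le_pow_left (by omega) 6)
    calc (f B : ℝ) ≤ M := by exact_mod_cast h2
      _ ≤ M * (B : ℝ) ^ a := by nlinarith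
      _ ≤ _ := mul_le_mul_of_nonneg_right (le_max_right _ _) (by linarith)
  · exact (hC B h hB).trans (mul_le_mul_of_nonneg_right (le_max_left _ _) (by linarith))

lemma exists_large {η : ℝ} (h0 : 0 < η) :
    ∃ B1 : ℕ, ∀ B : ℕ, B1 ≤ B → 3 ≤ (B : ℝ) ^ (η / 16) := by
  refine ⟨⌈(3 : ℝ) ^ (16 / η)⌉₊, fun B hB => ?_⟩
  have h1 : (3 : ℝ) ^ (16 / η) ≤ B := (Nat.le_ceil _).trans (by exact_mod_cast hB)
  calc (3 : ℝ) = ((3 : ℝ) ^ (16 / η)) ^ (η / 16) := by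
        rw [← Real.rpow_mul (by norm_num)]
        have : 16 / η * (η / 16) = 1 := by field_simp
        rw [this, Real.rpow_one]
    _ ≤ _ := Real.rpow_le_rpow (by positivity) h1 (by positivity)

/-- for large `B` the bound with a power saving -/
theorem exc_large {η : ℝ} (h0 : 0 < η) (h1 : η ≤ 1 / 20) :
    ∃ C : ℝ, ∀ B : ℕ, 1 ≤ B →
      ((Exc η B).card : ℝ) ≤ C * (B : ℝ) ^ (7 / 2 - η / 200) := by
  obtain ⟨C1, hC1, hDiv⟩ := exists_DivB (ε := η / 2000) (by positivity)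
  have hε : 0 < η / 2000 := by positivity
  refine ⟨48 * 1240 * C1 ^ 3 * (1 + 1 / (η / 2000)), fun B hB => ?_⟩
  obtain ⟨D, hD, hDle⟩ := hDiv B hB
  have hB' : (1 : ℝ) ≤ B := by exact_mod_cast hB
  have hB0 : (0 : ℝ) < B := by linarith
  have h := exc_le h0 h1 hB hD le_rfl
  have hlog : Real.log B ≤ (B : ℝ) ^ (η / 2000) / (η / 2000) :=
    Real.log_le_rpow_div hB0.le hε
  have hone : (1 : ℝ) ≤ (B : ℝ) ^ (η / 2000) := Real.one_le_rpow hB' hε.le
  have hL : 1 + Real.log B ≤ (1 + 1 / (η / 2000)) * (B : ℝ) ^ (η / 2000) := by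
    have : (1 + 1 / (η / 2000)) * (B : ℝ) ^ (η / 2000) =
      (B : ℝ) ^ (η / 2000) + (B : ℝ) ^ (η / 2000) / (η / 2000) := by ring
    rw [this]
    linarith
  have hL0 : 0 ≤ 1 + Real.log B := by
    have := Real.log_nonneg hB'
    linarith
  have hD3 : (D : ℝ) ^ 3 ≤ C1 ^ 3 * ((B : ℝ) ^ (η / 2000)) ^ 3 := by
    rw [← mul_pow]
    exact pow_le_pow_left₀ (Nat.cast_nonneg _) hDle 3
  have hexp : ((B : ℝ) ^ (η / 2000)) ^ 3 * (B : ℝ) ^ (7 / 2 : ℝ) * (B : ℝ) ^ (-(η / 96)) *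
      (B : ℝ) ^ (η / 2000) ≤ (B : ℝ) ^ (7 / 2 - η / 200) := by
    rw [← Real.rpow_natCast, ← Real.rpow_mul hB0.le, ← Real.rpow_add hB0, ← Real.rpow_add hB0,
      ← Real.rpow_add hB0]
    apply Real.rpow_le_rpow_of_exponent_le hB'
    push_cast
    linarith
  calc ((Exc η B).card : ℝ) ≤ 48 * (1240 * (D : ℝ) ^ 3 * (B : ℝ) ^ (7 / 2 : ℝ) *
      (B : ℝ) ^ (-(η / 96))) * (1 + Real.log B) := h
    _ ≤ 48 * (1240 * (C1 ^ 3 * ((B : ℝ) ^ (η / 2000)) ^ 3) * (B : ℝ) ^ (7 / 2 : ℝ) *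
      (B : ℝ) ^ (-(η / 96))) * ((1 + 1 / (η / 2000)) * (B : ℝ) ^ (η / 2000)) := by
        apply mul_le_mul _ hL hL0 (by positivity)
        apply mul_le_mul_of_nonneg_left _ (by norm_num)
        apply mul_le_mul_of_nonneg_right _ (by positivity)
        apply mul_le_mul_of_nonneg_right _ (by positivity)
        apply mul_le_mul_of_nonneg_left hD3 (by norm_num)
    _ = 48 * 1240 * C1 ^ 3 * (1 + 1 / (η / 2000)) * (((B : ℝ) ^ (η / 2000)) ^ 3 *
        (B : ℝ) ^ (7 / 2 : ℝ) * (B : ℝ) ^ (-(η / 96)) * (B : ℝ) ^ (η / 2000)) := by ring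
    _ ≤ _ := mul_le_mul_of_nonneg_left hexp (by positivity)

lemma shape_neg {η : ℝ} {B : ℕ} (x : ℤ) : Shape η B (-x) ↔ Shape η B x := by
  simp only [Shape, Int.natAbs_neg]

lemma exists_mid {η : ℝ} (h0 : 0 < η) (h1 : η ≤ 1 / 20) {B : ℕ} (hB : 1 ≤ B)
    (h3 : 3 ≤ (B : ℝ) ^ (η / 16)) :
    ∃ m : ℕ, (B : ℝ) ^ η < m ∧ (m : ℝ) ≤ (B : ℝ) ^ (1 / 4 - η) := by
  have hB' : (1 : ℝ) ≤ B := by exact_mod_cast hB
  have hB0 : (0 : ℝ) < B := by linarith
  have e1 : (B : ℝ) ^ (η / 16) ≤ (B : ℝ) ^ η :=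
    Real.rpow_le_rpow_of_exponent_le hB' (by linarith)
  have e2 : (B : ℝ) ^ η * (B : ℝ) ^ η ≤ (B : ℝ) ^ (1 / 4 - η) := by
    rw [← Real.rpow_add hB0]
    exact Real.rpow_le_rpow_of_exponent_le hB' (by linarith)
  refine ⟨⌊(B : ℝ) ^ (1 / 4 - η)⌋₊, ?_, Nat.floor_le (by positivity)⟩
  have h := Nat.lt_floor_add_one ((B : ℝ) ^ (1 / 4 - η))
  nlinarith

lemma gcd_flip (x : Fin 6 → ℤ) (i j : Fin 6) :
    Int.gcd (flip x i) (flip x j) = Int.gcd (x i) (x j) := by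
  have h : ∀ l, (flip x l).natAbs = (x l).natAbs := by
    intro l
    simp only [flip]
    split_ifs
    · rfl
    · exact Int.natAbs_neg _
  rw [Int.gcd, Int.gcd, h, h]

lemma typ_flip {η : ℝ} {B : ℕ} {x : Fin 6 → ℤ} (h : Typ η B (flip x)) : Typ η B x := by
  obtain ⟨h0, h1, h2, h3⟩ := h
  refine ⟨fun i m hm => ?_, fun i => ?_, fun i j hij => ?_, fun i k hk => ?_⟩
  · exact h0 i m ((flip_iff (P := fun y => (m : ℤ) ∣ y) (fun y => dvd_neg) x i).mpr hm)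
  · exact (flip_iff (P := fun y => Shape η B y) (fun y => shape_neg y) x i).mp (h1 i)
  · rw [← gcd_flip]
    exact h2 i j hij
  · exact h3 i k ((flip_iff (P := fun y => (k : ℤ) ^ 2 ∣ y) (fun y => dvd_neg) x i).mpr hk)

lemma not_typ_mem {η : ℝ} (h0 : 0 < η) (h1 : η ≤ 1 / 20) {B : ℕ} (hB : 1 ≤ B)
    (h3 : 3 ≤ (B : ℝ) ^ (η / 16)) {x : Fin 6 → ℤ} (hx : x ∈ N6set (fun _ => S B))
    (hT : ¬ Typ η B x) : x ∈ Exc η B := by
  classical
  have hB' : (1 : ℝ) ≤ B := by exact_mod_cast hB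
  have hB0 : (0 : ℝ) < B := by linarith
  have hS : ∀ i, (x i).natAbs ≤ B := by
    intro i
    have h := mem_S.mp ((mem_N6set.mp hx).1 i)
    have : ((x i).natAbs : ℤ) ≤ B := by rw [Int.natCast_natAbs]; exact h
    exact_mod_cast this
  have hlt : (B : ℝ) ^ (η / 16) ≤ (B : ℝ) ^ η :=
    Real.rpow_le_rpow_of_exponent_le hB' (by linarith)
  by_cases hnd : ∃ i, ∃ m : ℕ, (m : ℤ) ∣ x i ∧ (B : ℝ) ^ η < m ∧ (m : ℝ) ≤ (B : ℝ) ^ (1 / 4 - η)
  · apply Bad_sub_Exc h0 h1 hB h3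
    rw [Bad, mem_filter]
    exact ⟨hx, hnd⟩
  have hnd' : ∀ i, ∀ m : ℕ, (m : ℤ) ∣ x i → ¬ ((B : ℝ) ^ η < m ∧ (m : ℝ) ≤ (B : ℝ) ^ (1 / 4 - η)) :=
    fun i m hm h => hnd ⟨i, m, hm, h⟩
  by_cases hsh : ∀ i, Shape η B (x i)
  · have hne : ∀ i, x i ≠ 0 := by
      intro i hi
      obtain ⟨s, l, hs, -, -, hl, he⟩ := hsh i
      rw [hi, Int.natAbs_zero] at he
      have hs0 : s ≠ 0 := by omega
      have hl0 : l.prod ≠ 0 :=
        List.prod_ne_zero fun hz => Nat.not_prime_zero (hl 0 hz).1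
      exact (Nat.mul_ne_zero hs0 hl0) he.symm
    by_cases hg : ∀ i j, i ≠ j → ((Int.gcd (x i) (x j) : ℕ) : ℝ) ≤ (B : ℝ) ^ η
    · have hk : ¬ ∀ i, ∀ k : ℕ, (k : ℤ) ^ 2 ∣ x i → (k : ℝ) ≤ (B : ℝ) ^ η :=
        fun h => hT ⟨hnd', hsh, hg, h⟩
      push Not at hk
      obtain ⟨i, k, hk1, hk2⟩ := hk
      have hkd : k ^ 2 ∣ (x i).natAbs := by
        apply Int.natCast_dvd.mp
        push_cast
        exact hk1
      have hpos : 0 < (x i).natAbs := Int.natAbs_pos.mpr (hne i)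
      have hk2B : k ^ 2 ≤ B := (Nat.le_of_dvd hpos hkd).trans (hS i)
      have hk0 : 1 ≤ k := by
        rcases Nat.eq_zero_or_pos k with h | h
        · subst h
          rw [Nat.cast_zero] at hk2
          exact absurd hk2 (not_lt.mpr (by positivity))
        · exact h
      rw [Exc, mem_biUnion]
      refine ⟨i, mem_univ i, ?_⟩
      rw [Fam, mem_union]
      left
      rw [mem_biUnion]
      refine ⟨k, mem_filter.mpr ⟨Finset.mem_Icc.mpr ⟨hk0,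
        (Nat.le_self_pow (by norm_num) k).trans hk2B⟩, lt_of_le_of_lt hlt hk2, hk2B⟩, ?_⟩
      rw [mem_N6set]
      refine ⟨fun l => ?_, (mem_N6set.mp hx).2⟩
      by_cases hl : l = i
      · simp only [one, if_pos hl]
        rw [mem_Mk, hl]
        refine ⟨(mem_N6set.mp hx).1 i, ?_⟩
        push_cast
        exact hk1
      · simp only [one, if_neg hl]
        exact (mem_N6set.mp hx).1 l
    · push Not at hg
      obtain ⟨i, j, hij, hg⟩ := hg
      have hg0 : 1 ≤ Int.gcd (x i) (x j) := Int.gcd_pos_of_ne_zero_left _ (hne i)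
      have hgB : Int.gcd (x i) (x j) ≤ B :=
        (Nat.le_of_dvd (Int.natAbs_pos.mpr (hne i)) (Nat.gcd_dvd_left _ _)).trans (hS i)
      rw [Exc, mem_biUnion]
      refine ⟨i, mem_univ i, ?_⟩
      rw [Fam, mem_union, mem_union]
      right; left
      rw [mem_biUnion]
      refine ⟨j, mem_erase.mpr ⟨hij.symm, mem_univ j⟩, ?_⟩
      rw [mem_biUnion]
      refine ⟨Int.gcd (x i) (x j), mem_filter.mpr ⟨Finset.mem_Icc.mpr ⟨hg0, hgB⟩,
        lt_of_le_of_lt hlt hg⟩, ?_⟩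
      rw [mem_N6set]
      refine ⟨fun l => ?_, (mem_N6set.mp hx).2⟩
      by_cases hl : l = i ∨ l = j
      · simp only [two, if_pos hl]
        rw [mem_Mk]
        refine ⟨(mem_N6set.mp hx).1 l, ?_⟩
        rcases hl with rfl | rfl
        · exact Int.gcd_dvd_left _ _
        · exact Int.gcd_dvd_right _ _
      · simp only [two, if_neg hl]
        exact (mem_N6set.mp hx).1 l
  · push Not at hsh
    obtain ⟨i, hi⟩ := hsh
    apply Bad_sub_Exc h0 h1 hB h3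
    rw [Bad, mem_filter]
    refine ⟨hx, i, ?_⟩
    by_cases hxi : x i = 0
    · obtain ⟨m, hm1, hm2⟩ := exists_mid h0 h1 hB h3
      exact ⟨m, by rw [hxi]; exact dvd_zero _, hm1, hm2⟩
    · by_contra hcon
      push Not at hcon
      apply hi
      refine shape_of_no_div h0 h1 hB hxi (hS i) ?_
      intro m hm hm1
      exact hcon m (Int.natCast_dvd.mpr hm) hm1

open scoped Classical in
/-- all but few solutions are typical -/
theorem part_two {η : ℝ} (h0 : 0 < η) (h1 : η ≤ 1 / 20) :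
    ∃ C : ℝ, ∀ B : ℕ, 1 ≤ B →
      (((Sol B).filter (fun x => ¬ Typ η B x)).card : ℝ) ≤
        C * (B : ℝ) ^ (7 / 2 - η / 200) := by
  obtain ⟨C, hC⟩ := exc_large h0 h1
  obtain ⟨B1, hB1⟩ := exists_large h0
  refine all_of_large (C := C) (by linarith) B1 ?_ ?_
  · intro B _
    refine le_trans ?_ (card_N6_triv B)
    exact transfer (P := fun _ => True) (fun _ h => h)
      (fun x hx => ⟨(mem_filter.mp hx).1, trivial⟩) (fun x hx _ => hx)
  · intro B hB hB'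
    refine (Nat.cast_le.mpr ?_).trans (hC B hB')
    exact transfer (P := fun x => ¬ Typ η B x) (fun x h h' => h (typ_flip h'))
      (fun x hx => mem_filter.mp hx) (fun x hx h => not_typ_mem h0 h1 hB' (hB1 B hB) hx h)

open scoped Classical in
/-- the density of the shape -/
theorem part_three : ∃ K : ℝ, ∀ η : ℝ, 0 < η → η ≤ 1 / 20 → ∃ B0 : ℕ, ∀ B : ℕ, B0 ≤ B →
    (((Finset.Icc (-(B : ℤ)) (B : ℤ)).filter (fun x => Shape η B x)).card : ℝ) ≤ K * η * B := by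
  obtain ⟨K, -, hK⟩ := dens
  refine ⟨K, fun η h0 h1 => ?_⟩
  obtain ⟨B0, hB0⟩ := hK η h0 h1
  refine ⟨B0, fun B hB => hB0 B hB _ fun x hx => ?_⟩
  rw [mem_filter, Finset.mem_Icc] at hx
  exact ⟨abs_le.mpr hx.1, hx.2⟩

open scoped Classical in
/-- the equivalence with the restricted count -/
theorem part_four {η : ℝ} (h0 : 0 < η) (h1 : η ≤ 1 / 20) :
    (∃ θ : ℝ, θ < 7 / 2 ∧ ∃ C : ℝ, ∀ B : ℕ, 1 ≤ B → ((Sol B).card : ℝ) ≤ C * (B : ℝ) ^ θ) ↔
    (∃ θ : ℝ, θ < 7 / 2 ∧ ∃ C : ℝ, ∀ B : ℕ, 1 ≤ B →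
      (((Sol B).filter (fun x => Typ η B x)).card : ℝ) ≤ C * (B : ℝ) ^ θ) := by
  constructor
  · rintro ⟨θ, hθ, C, hC⟩
    refine ⟨θ, hθ, C, fun B hB => le_trans ?_ (hC B hB)⟩
    exact_mod_cast card_filter_le _ _
  · rintro ⟨θ, hθ, C, hC⟩
    obtain ⟨C2, hC2⟩ := part_two h0 h1
    refine ⟨max θ (7 / 2 - η / 200), max_lt hθ (by linarith), |C| + |C2|, fun B hB => ?_⟩
    have hB' : (1 : ℝ) ≤ B := by exact_mod_cast hB
    have e1 : (B : ℝ) ^ θ ≤ (B : ℝ) ^ (max θ (7 / 2 - η / 200)) :=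
      Real.rpow_le_rpow_of_exponent_le hB' (le_max_left _ _)
    have e2 : (B : ℝ) ^ (7 / 2 - η / 200) ≤ (B : ℝ) ^ (max θ (7 / 2 - η / 200)) :=
      Real.rpow_le_rpow_of_exponent_le hB' (le_max_right _ _)
    have hsplit : (Sol B).card = ((Sol B).filter (fun x => Typ η B x)).card +
        ((Sol B).filter (fun x => ¬ Typ η B x)).card := by
      exact (Finset.card_filter_add_card_filter_not (s := Sol B) (fun x => Typ η B x)).symm
    have hp : (0 : ℝ) ≤ (B : ℝ) ^ (max θ (7 / 2 - η / 200)) := by positivity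
    calc ((Sol B).card : ℝ) = (((Sol B).filter (fun x => Typ η B x)).card : ℝ) +
        (((Sol B).filter (fun x => ¬ Typ η B x)).card : ℝ) := by
          exact_mod_cast hsplit
      _ ≤ C * (B : ℝ) ^ θ + C2 * (B : ℝ) ^ (7 / 2 - η / 200) := add_le_add (hC B hB) (hC2 B hB)
      _ ≤ |C| * (B : ℝ) ^ θ + |C2| * (B : ℝ) ^ (7 / 2 - η / 200) := by
          apply add_le_add
          · exact mul_le_mul_of_nonneg_right (le_abs_self _) (by positivity)
          · exact mul_le_mul_of_nonneg_right (le_abs_self _) (by positivity)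
      _ ≤ |C| * (B : ℝ) ^ (max θ (7 / 2 - η / 200)) +
          |C2| * (B : ℝ) ^ (max θ (7 / 2 - η / 200)) := by
          apply add_le_add
          · exact mul_le_mul_of_nonneg_left e1 (abs_nonneg _)
          · exact mul_le_mul_of_nonneg_left e2 (abs_nonneg _)
      _ = _ := by ring

end SixCubes
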