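import Pool.Agent.Lib.MP_e471a0_nt.Asm
import Pool.Agent.Lib.MP_e471a0_nt.DivBd

set_option autoImplicit false

/-!
STEP 5, the sums: `#Bad ≤ C B^(7/2 - η/200)`.
-/

open Finset

namespace SixCubes

lemma sum_inv_le (B : ℕ) : ∑ k ∈ Finset.Icc 1 B, ((k : ℝ))⁻¹ ≤ 1 + Real.log B := by
  have h := harmonic_le_one_add_log B
  rw [harmonic_eq_sum_Icc] at h
  push_cast at h
  exact h

lemma sum_R_le {B : ℕ} {R : Finset ℕ} (hR : R ⊆ Finset.Icc 1 B) {A : ℝ} (hA : 0 ≤ A)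
    {f : ℕ → ℝ} (hf : ∀ k ∈ R, f k ≤ A * (k : ℝ)⁻¹) :
    ∑ k ∈ R, f k ≤ A * (1 + Real.log B) := by
  calc ∑ k ∈ R, f k ≤ ∑ k ∈ R, A * (k : ℝ)⁻¹ := Finset.sum_le_sum hf
    _ ≤ ∑ k ∈ Finset.Icc 1 B, A * (k : ℝ)⁻¹ :=
        Finset.sum_le_sum_of_subset_of_nonneg hR fun k _ _ => by positivity
    _ = A * ∑ k ∈ Finset.Icc 1 B, (k : ℝ)⁻¹ := by rw [Finset.mul_sum]
    _ ≤ _ := mul_le_mul_of_nonneg_left (sum_inv_le B) hA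

/-- `k^(-(1+s)) ≤ k^(-1) K^(-s)` for `k > K` -/
lemma inv_split {k K s t : ℝ} (hK : 0 < K) (hk : K < k) (hs : 0 ≤ s) (ht : t = 1 + s) :
    (k ^ t)⁻¹ ≤ (K ^ s)⁻¹ * k⁻¹ := by
  have hk0 : 0 < k := hK.trans hk
  rw [ht, Real.rpow_add hk0, Real.rpow_one, mul_inv, mul_comm]
  apply mul_le_mul_of_nonneg_right _ (by positivity)
  apply inv_anti₀ (by positivity)
  exact Real.rpow_le_rpow hK.le hk.le hs

lemma f1_le {β D k Q : ℝ} (hβ : 0 < β) (hD : 1 ≤ D) {κ : ℝ} (hk : β ^ κ < k)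
    (hQ : Q = β ^ (-(κ / 6))) {f : ℝ}
    (hf : f ≤ 1240 * D ^ 2 * β ^ (7 / 2 : ℝ) * (k ^ (7 / 6 : ℝ))⁻¹) :
    f ≤ (1240 * D ^ 3 * β ^ (7 / 2 : ℝ) * Q) * k⁻¹ := by
  have hk0 : 0 < k := (Real.rpow_pos_of_pos hβ κ).trans hk
  have h1 := inv_split (Real.rpow_pos_of_pos hβ κ) hk (s := 1 / 6) (t := 7 / 6) (by norm_num)
    (by norm_num)
  have h2 : ((β ^ κ) ^ (1 / 6 : ℝ))⁻¹ = Q := by
    rw [hQ, ← Real.rpow_mul hβ.le, Real.rpow_neg hβ.le]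
    congr 2
    ring
  rw [h2] at h1
  have hQ0 : 0 < Q := by rw [hQ]; positivity
  have hD3 : D ^ 2 ≤ D ^ 3 := pow_le_pow_right₀ hD (by norm_num)
  calc f ≤ 1240 * D ^ 2 * β ^ (7 / 2 : ℝ) * (k ^ (7 / 6 : ℝ))⁻¹ := hf
    _ ≤ 1240 * D ^ 3 * β ^ (7 / 2 : ℝ) * (Q * k⁻¹) := by
        apply mul_le_mul _ h1 (by positivity) (by positivity)
        apply mul_le_mul_of_nonneg_right _ (by positivity)
        linarith
    _ = _ := by ring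

lemma f3_le {β D m Q η : ℝ} (hβ : 1 ≤ β) (hD : 1 ≤ D) (hη : 0 < η) (hη1 : η ≤ 1 / 20)
    (hm : β ^ (η / 2) < m) (hm2 : m ≤ β ^ (1 / 4 - η))
    (hQ : Q = β ^ (-(η / 96))) {f : ℝ}
    (hf : f ≤ 1240 * D ^ 3 * (β ^ (27 / 8 : ℝ) * (m ^ (1 / 2 : ℝ))⁻¹ +
        β ^ (7 / 2 : ℝ) * (m ^ (9 / 8 : ℝ))⁻¹)) :
    f ≤ (2 * (1240 * D ^ 3 * β ^ (7 / 2 : ℝ) * Q)) * m⁻¹ := by
  have hβ0 : 0 < β := by linarith
  have hm0 : 0 < m := (Real.rpow_pos_of_pos hβ0 _).trans hm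
  have h1 : (m ^ (9 / 8 : ℝ))⁻¹ ≤ Q * m⁻¹ := by
    have h := inv_split (Real.rpow_pos_of_pos hβ0 (η / 2)) hm (s := 1 / 8) (t := 9 / 8)
      (by norm_num) (by norm_num)
    refine h.trans ?_
    apply mul_le_mul_of_nonneg_right _ (by positivity)
    rw [← Real.rpow_mul hβ0.le, ← Real.rpow_neg hβ0.le, hQ]
    apply Real.rpow_le_rpow_of_exponent_le hβ
    linarith
  have h2 : β ^ (27 / 8 : ℝ) * (m ^ (1 / 2 : ℝ))⁻¹ ≤ β ^ (7 / 2 : ℝ) * (Q * m⁻¹) := by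
    have e1 : (m ^ (1 / 2 : ℝ))⁻¹ = m ^ (1 / 2 : ℝ) * m⁻¹ := by
      have : m = m ^ (1 / 2 : ℝ) * m ^ (1 / 2 : ℝ) := by
        rw [← Real.rpow_add hm0]; norm_num
      have hp : 0 < m ^ (1 / 2 : ℝ) := by positivity
      rw [eq_mul_inv_iff_mul_eq₀ hm0.ne', inv_mul_eq_iff_eq_mul₀ hp.ne']
      exact this
    have e2 : m ^ (1 / 2 : ℝ) ≤ β ^ ((1 / 4 - η) * (1 / 2)) := by
      rw [Real.rpow_mul hβ0.le]
      exact Real.rpow_le_rpow hm0.le hm2 (by norm_num)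
    have e3 : β ^ (27 / 8 : ℝ) * β ^ ((1 / 4 - η) * (1 / 2)) ≤ β ^ (7 / 2 : ℝ) * Q := by
      rw [hQ, ← Real.rpow_add hβ0, ← Real.rpow_add hβ0]
      apply Real.rpow_le_rpow_of_exponent_le hβ
      linarith
    rw [e1]
    calc β ^ (27 / 8 : ℝ) * (m ^ (1 / 2 : ℝ) * m⁻¹)
        ≤ β ^ (27 / 8 : ℝ) * (β ^ ((1 / 4 - η) * (1 / 2)) * m⁻¹) := by
          apply mul_le_mul_of_nonneg_left _ (by positivity)
          exact mul_le_mul_of_nonneg_right e2 (by positivity)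
      _ = (β ^ (27 / 8 : ℝ) * β ^ ((1 / 4 - η) * (1 / 2))) * m⁻¹ := by ring
      _ ≤ (β ^ (7 / 2 : ℝ) * Q) * m⁻¹ := mul_le_mul_of_nonneg_right e3 (by positivity)
      _ = _ := by ring
  calc f ≤ 1240 * D ^ 3 * (β ^ (27 / 8 : ℝ) * (m ^ (1 / 2 : ℝ))⁻¹ +
        β ^ (7 / 2 : ℝ) * (m ^ (9 / 8 : ℝ))⁻¹) := hf
    _ ≤ 1240 * D ^ 3 * (β ^ (7 / 2 : ℝ) * (Q * m⁻¹) + β ^ (7 / 2 : ℝ) * (Q * m⁻¹)) := by
        apply mul_le_mul_of_nonneg_left _ (by positivity)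
        apply add_le_add h2
        exact mul_le_mul_of_nonneg_left h1 (by positivity)
    _ = _ := by ring

/-- the exceptional set: the union of the three families over the six places -/
noncomputable def Exc (η : ℝ) (B : ℕ) : Finset (Fin 6 → ℤ) :=
  univ.biUnion (fun i => Fam η ((B : ℝ) ^ (η / 16)) ((B : ℝ) ^ (η / 16)) B i)

theorem Bad_sub_Exc {η : ℝ} (h0 : 0 < η) (h1 : η ≤ 1 / 20) {B : ℕ} (hB : 1 ≤ B)
    (h3 : 3 ≤ (B : ℝ) ^ (η / 16)) : Bad η B ⊆ Exc η B := by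
  have hB0 : (0 : ℝ) < B := by exact_mod_cast hB
  have hGK : 3 * ((B : ℝ) ^ (η / 16)) ^ 5 * ((B : ℝ) ^ (η / 16)) ^ 2 * (B : ℝ) ^ (η / 2) ≤
      (B : ℝ) ^ η := by
    have e : (B : ℝ) ^ η = (B : ℝ) ^ (η / 16) * ((B : ℝ) ^ (η / 16)) ^ 5 *
        ((B : ℝ) ^ (η / 16)) ^ 2 * (B : ℝ) ^ (η / 2) := by
      rw [← Real.rpow_natCast, ← Real.rpow_natCast, ← Real.rpow_mul hB0.le,
        ← Real.rpow_mul hB0.le, ← Real.rpow_add hB0, ← Real.rpow_add hB0, ← Real.rpow_add hB0]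
      congr 1
      push_cast
      ring
    rw [e]
    have : 0 ≤ ((B : ℝ) ^ (η / 16)) ^ 5 * (((B : ℝ) ^ (η / 16)) ^ 2 * (B : ℝ) ^ (η / 2)) := by
      positivity
    nlinarith
  exact Bad_sub h0 h1 hB hGK

theorem exc_le {η : ℝ} (h0 : 0 < η) (h1 : η ≤ 1 / 20) {T D B : ℕ} (hB : 1 ≤ B)
    (hD : DivB T D) (hT : 100 * B ^ 3 ≤ T) :
    ((Exc η B).card : ℝ) ≤ 48 * (1240 * (D : ℝ) ^ 3 * (B : ℝ) ^ (7 / 2 : ℝ) *
      (B : ℝ) ^ (-(η / 96))) * (1 + Real.log B) := by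
  have hB' : (1 : ℝ) ≤ B := by exact_mod_cast hB
  have hB0 : (0 : ℝ) < B := by linarith
  have hB3 : B ≤ B ^ 3 := Nat.le_self_pow (by norm_num) _
  have hD1 : 1 ≤ D := one_le_D hD (by omega)
  have hD2 : (1 : ℝ) ≤ D := by exact_mod_cast hD1
  set A : ℝ := 1240 * (D : ℝ) ^ 3 * (B : ℝ) ^ (7 / 2 : ℝ) * (B : ℝ) ^ (-(η / 96)) with hA
  have hA0 : 0 ≤ A := by positivity
  have hL : 0 ≤ 1 + Real.log B := by
    have := Real.log_nonneg hB'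
    linarith
  have hQ : (B : ℝ) ^ (-(η / 96)) = (B : ℝ) ^ (-(η / 16 / 6)) := by
    congr 1; ring
  have hs1 : ∑ k ∈ R1 ((B : ℝ) ^ (η / 16)) B,
      (N6 ![Mk (k ^ 2) B, S B, S B, S B, S B, S B] : ℝ) ≤ A * (1 + Real.log B) := by
    refine sum_R_le (R := R1 ((B : ℝ) ^ (η / 16)) B) (filter_subset _ _) hA0 fun k hk => ?_
    rw [R1, mem_filter, Finset.mem_Icc] at hk
    have hk2 : 1 ≤ k ^ 2 := Nat.one_le_pow _ _ hk.1.1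
    have h := e_real hD hT hk2 hk.2.2
    refine f1_le hB0 hD2 hk.2.1 hQ ?_
    have e : (((k ^ 2 : ℕ) : ℝ)) ^ (7 / 12 : ℝ) = (k : ℝ) ^ (7 / 6 : ℝ) := by
      push_cast
      rw [← Real.rpow_natCast, ← Real.rpow_mul (Nat.cast_nonneg k)]
      norm_num
    rw [e] at h
    exact h
  have hs2 : ∑ g ∈ R2 ((B : ℝ) ^ (η / 16)) B,
      (N6 ![Mk g B, Mk g B, S B, S B, S B, S B] : ℝ) ≤ A * (1 + Real.log B) := by
    refine sum_R_le (R := R2 ((B : ℝ) ^ (η / 16)) B) (filter_subset _ _) hA0 fun k hk => ?_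
    rw [R2, mem_filter, Finset.mem_Icc] at hk
    exact f1_le hB0 hD2 hk.2 hQ (a_real hD hT hk.1.1 hk.1.2)
  have hs3 : ∑ m ∈ R3 η B,
      (N6 ![Mk m B, Ak m B, Ak m B, Ak m B, Ak m B, Ak m B] : ℝ) ≤
      (2 * A) * (1 + Real.log B) := by
    refine sum_R_le (R := R3 η B) (filter_subset _ _) (by linarith) fun k hk => ?_
    rw [R3, mem_filter, Finset.mem_Icc] at hk
    exact f3_le hB' hD2 h0 h1 hk.2.1 hk.2.2.1 rfl (eA_real hD hT hk.1.1 hk.1.2 hk.2.2.2)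
  have hF : ∀ i : Fin 6, ((Fam η ((B : ℝ) ^ (η / 16)) ((B : ℝ) ^ (η / 16)) B i).card : ℝ) ≤
      8 * A * (1 + Real.log B) := by
    intro i
    have h := card_Fam_le η ((B : ℝ) ^ (η / 16)) ((B : ℝ) ^ (η / 16)) B i
    have h' : ((Fam η ((B : ℝ) ^ (η / 16)) ((B : ℝ) ^ (η / 16)) B i).card : ℝ) ≤
      ∑ k ∈ R1 ((B : ℝ) ^ (η / 16)) B, (N6 ![Mk (k ^ 2) B, S B, S B, S B, S B, S B] : ℝ) +
      (5 * ∑ g ∈ R2 ((B : ℝ) ^ (η / 16)) B, (N6 ![Mk g B, Mk g B, S B, S B, S B, S B] : ℝ) +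
      ∑ m ∈ R3 η B, (N6 ![Mk m B, Ak m B, Ak m B, Ak m B, Ak m B, Ak m B] : ℝ)) := by
      exact_mod_cast h
    linarith
  have h2 : ((Exc η B).card : ℝ) ≤ ∑ i : Fin 6,
      ((Fam η ((B : ℝ) ^ (η / 16)) ((B : ℝ) ^ (η / 16)) B i).card : ℝ) := by
    have : (Exc η B).card ≤ _ := card_biUnion_le
    exact_mod_cast this
  calc ((Exc η B).card : ℝ) ≤ _ := h2
    _ ≤ ∑ i : Fin 6, 8 * A * (1 + Real.log B) := Finset.sum_le_sum fun i _ => hF i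
    _ = 48 * A * (1 + Real.log B) := by
        rw [Finset.sum_const, Finset.card_univ, Fintype.card_fin, nsmul_eq_mul]
        push_cast; ring

end SixCubes
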