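import Pool.Agent.Lib.MP_e471a0_nt.Core2

set_option autoImplicit false

/-!
The counts `N6 A` of solutions of `x_0^3+...+x_5^3=0` with `x_i` in `A_i`: permutations,
Cauchy-Schwarz and Hoelder.
-/

open Finset

namespace SixCubes

noncomputable def N6set (A : Fin 6 → Finset ℤ) : Finset (Fin 6 → ℤ) :=
  (Fintype.piFinset A).filter (fun x => ∑ i, x i ^ 3 = 0)

noncomputable def N6 (A : Fin 6 → Finset ℤ) : ℕ := (N6set A).card

lemma mem_N6set {A : Fin 6 → Finset ℤ} {x : Fin 6 → ℤ} :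
    x ∈ N6set A ↔ (∀ i, x i ∈ A i) ∧ ∑ i, x i ^ 3 = 0 := by
  rw [N6set, mem_filter, Fintype.mem_piFinset]

lemma N6_mono {A A' : Fin 6 → Finset ℤ} (h : ∀ i, A i ⊆ A' i) : N6 A ≤ N6 A' := by
  refine Finset.card_le_card fun x hx => ?_
  rw [mem_N6set] at hx ⊢
  exact ⟨fun i => h i (hx.1 i), hx.2⟩

lemma N6_perm (A : Fin 6 → Finset ℤ) (σ : Equiv.Perm (Fin 6)) :
    N6 (fun i => A (σ i)) = N6 A := by
  refine Finset.card_nbij' (fun x i => x (σ.symm i)) (fun x i => x (σ i)) ?_ ?_ ?_ ?_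
  · intro x hx
    have hx' := mem_N6set.mp (Finset.mem_coe.mp hx)
    refine Finset.mem_coe.mpr (mem_N6set.mpr ⟨fun i => ?_, ?_⟩)
    · have := hx'.1 (σ.symm i)
      simpa using this
    · rw [← hx'.2]
      exact Equiv.sum_comp σ.symm (fun i => x i ^ 3)
  · intro x hx
    have hx' := mem_N6set.mp (Finset.mem_coe.mp hx)
    refine Finset.mem_coe.mpr (mem_N6set.mpr ⟨fun i => hx'.1 (σ i), ?_⟩)
    rw [← hx'.2]
    exact Equiv.sum_comp σ (fun i => x i ^ 3)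
  · intro x _
    funext i
    simp
  · intro x _
    funext i
    simp

lemma mem_eqPairs {α β γ : Type*} [DecidableEq γ] {s : Finset α} {t : Finset β} {f : α → γ}
    {g : β → γ} {p : α × β} : p ∈ eqPairs s t f g ↔ (p.1 ∈ s ∧ p.2 ∈ t) ∧ f p.1 = g p.2 := by
  rw [eqPairs, mem_filter, mem_product]

def SymSet (A : Finset ℤ) : Prop := ∀ x ∈ A, -x ∈ A

def c3 (t : ℤ × (ℤ × ℤ)) : ℤ := t.1 ^ 3 + t.2.1 ^ 3 + t.2.2 ^ 3

lemma N6_eq (A0 A1 A2 A3 A4 A5 : Finset ℤ) (h3 : SymSet A3) (h4 : SymSet A4) (h5 : SymSet A5) :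
    N6 ![A0, A1, A2, A3, A4, A5] =
      (eqPairs (A0 ×ˢ (A1 ×ˢ A2)) (A3 ×ˢ (A4 ×ˢ A5)) c3 c3).card := by
  refine Finset.card_nbij' (fun x => ((x 0, (x 1, x 2)), (-x 3, (-x 4, -x 5))))
    (fun p => ![p.1.1, p.1.2.1, p.1.2.2, -p.2.1, -p.2.2.1, -p.2.2.2]) ?_ ?_ ?_ ?_
  · intro x hx
    have hx' := mem_N6set.mp (Finset.mem_coe.mp hx)
    obtain ⟨h1, h2⟩ := hx'
    have e0 := h1 0
    have e1 := h1 1
    have e2 := h1 2
    have e3 := h1 3
    have e4 := h1 4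
    have e5 := h1 5
    simp only [Fin.isValue, Matrix.cons_val] at e0 e1 e2 e3 e4 e5
    simp only [Fin.sum_univ_six] at h2
    refine Finset.mem_coe.mpr ?_
    rw [mem_eqPairs]
    simp only [mem_product, c3]
    refine ⟨⟨⟨e0, e1, e2⟩, h3 _ e3, h4 _ e4, h5 _ e5⟩, ?_⟩
    linear_combination h2
  · intro p hp
    have hp' := Finset.mem_coe.mp hp
    rw [mem_eqPairs] at hp'
    simp only [mem_product, c3] at hp'
    obtain ⟨⟨⟨e0, e1, e2⟩, e3, e4, e5⟩, h⟩ := hp'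
    refine Finset.mem_coe.mpr (mem_N6set.mpr ⟨?_, ?_⟩)
    · intro i
      fin_cases i
      · exact e0
      · exact e1
      · exact e2
      · exact h3 _ e3
      · exact h4 _ e4
      · exact h5 _ e5
    · simp only [Fin.sum_univ_six, Fin.isValue, Matrix.cons_val]
      linear_combination h
  · intro x _
    funext i
    fin_cases i <;> simp
  · intro p _
    simp

/-- Cauchy-Schwarz -/
lemma N6_cs (A0 A1 A2 A3 A4 A5 : Finset ℤ) (h0 : SymSet A0) (h1 : SymSet A1) (h2 : SymSet A2)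
    (h3 : SymSet A3) (h4 : SymSet A4) (h5 : SymSet A5) :
    N6 ![A0, A1, A2, A3, A4, A5] ^ 2 ≤
      N6 ![A0, A1, A2, A0, A1, A2] * N6 ![A3, A4, A5, A3, A4, A5] := by
  rw [N6_eq _ _ _ _ _ _ h3 h4 h5, N6_eq _ _ _ _ _ _ h0 h1 h2, N6_eq _ _ _ _ _ _ h3 h4 h5]
  exact card_eqPairs_sq_le _ _ _ _

lemma N6_perm' (A A' : Fin 6 → Finset ℤ) (σ : Equiv.Perm (Fin 6)) (h : ∀ i, A (σ i) = A' i) :
    N6 A = N6 A' := by
  rw [← N6_perm A σ]
  congr 1
  funext i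
  exact h i

lemma perm13 (M A : Finset ℤ) : N6 ![M, A, A, M, A, A] = N6 ![M, M, A, A, A, A] := by
  refine N6_perm' _ _ (Equiv.swap 1 3) fun i => ?_
  fin_cases i <;> simp [Equiv.swap_apply_def]

lemma perm24 (M A : Finset ℤ) : N6 ![M, M, A, M, M, A] = N6 ![M, M, M, M, A, A] := by
  refine N6_perm' _ _ (Equiv.swap 2 4) fun i => ?_
  fin_cases i <;> simp [Equiv.swap_apply_def]

lemma perm31 (M A : Finset ℤ) : N6 ![M, M, M, M, A, A] = N6 ![M, M, M, A, A, M] := by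
  refine N6_perm' _ _ (Equiv.swap 3 5) fun i => ?_
  fin_cases i <;> simp [Equiv.swap_apply_def]

lemma perm_last (M A : Finset ℤ) : N6 ![A, A, M, A, A, M] = N6 ![M, M, A, A, A, A] := by
  have h1 : N6 ![A, A, M, A, A, M] = N6 ![M, A, A, A, A, M] := by
    refine N6_perm' _ _ (Equiv.swap 0 2) fun i => ?_
    fin_cases i <;> simp [Equiv.swap_apply_def]
  have h2 : N6 ![M, A, A, A, A, M] = N6 ![M, M, A, A, A, A] := by
    refine N6_perm' _ _ (Equiv.swap 1 5) fun i => ?_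
    fin_cases i <;> simp [Equiv.swap_apply_def]
  rw [h1, h2]

variable {M A : Finset ℤ}

/-- `e^2 ≤ a J` -/
theorem hold1 (hM : SymSet M) (hA : SymSet A) :
    N6 ![M, A, A, A, A, A] ^ 2 ≤ N6 ![M, M, A, A, A, A] * N6 ![A, A, A, A, A, A] := by
  rw [← perm13 M A]
  exact N6_cs _ _ _ _ _ _ hM hA hA hA hA hA

/-- `a^2 ≤ b J` -/
theorem hold2 (hM : SymSet M) (hA : SymSet A) :
    N6 ![M, M, A, A, A, A] ^ 2 ≤ N6 ![M, M, M, M, A, A] * N6 ![A, A, A, A, A, A] := by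
  rw [← perm24 M A]
  exact N6_cs _ _ _ _ _ _ hM hM hA hA hA hA

/-- `b^2 ≤ c a` -/
theorem hold3 (hM : SymSet M) (hA : SymSet A) :
    N6 ![M, M, M, M, A, A] ^ 2 ≤ N6 ![M, M, M, M, M, M] * N6 ![M, M, A, A, A, A] := by
  rw [perm31 M A, ← perm_last M A]
  have := N6_cs M M M A A M hM hM hM hA hA hM
  exact this

end SixCubes
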